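import Mathlib

/-!
[H5 WD Count]  For a finite set `S` of odd primes with product `d`, the `k` such that every `p ∈ S` divides
`k 2^k - 1` have density exactly `1/d`; the number of them below `X` differs from `X/d` by at most `φ(d)`.
-/

set_option autoImplicit false

namespace Pool.Agent.H5.WD

open Finset

/-- every `p ∈ S` divides `k 2^k - 1` -/
def Hit (S : Finset ℕ) (k : ℕ) : Prop := ∀ p ∈ S, k * 2 ^ k ≡ 1 [MOD p]

instance (S : Finset ℕ) : DecidablePred (Hit S) := fun k => by
  unfold Hit; infer_instance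

/-- counting in blocks of a period -/
theorem count_blocks (A : ℕ → Prop) [DecidablePred A] (T : ℕ) (hA : ∀ k, A (k + T) ↔ A k) (m r : ℕ) :
    Nat.count A (T * m + r) = m * Nat.count A T + Nat.count A r := by
  have hper : ∀ m k, A (T * m + k) ↔ A k := by
    intro m
    induction m with
    | zero => intro k; simp
    | succ m ih =>
      intro k
      rw [show T * (m + 1) + k = (T * m + k) + T by ring, hA, ih]
  have hper' : ∀ m, (fun k => A (T * m + k)) = A := by
    intro m
    funext k
    exact propext (hper m k)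
  have h1 : ∀ m, Nat.count A (T * m) = m * Nat.count A T := by
    intro m
    induction m with
    | zero => simp
    | succ m ih =>
      rw [show T * (m + 1) = T * m + T by ring, Nat.count_add, ih]
      have : Nat.count (fun k => A (T * m + k)) T = Nat.count A T := by
        congr 1
        exact hper' m
      rw [this]
      ring
  rw [Nat.count_add, h1]
  have : Nat.count (fun k => A (T * m + k)) r = Nat.count A r := by
    congr 1
    exact hper' m
  rw [this]

theorem two_pow_modEq {p : ℕ} (hp : p.Prime) (h2 : p ≠ 2) {L : ℕ} (hL : (p - 1) ∣ L) :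
    2 ^ L ≡ 1 [MOD p] := by
  obtain ⟨c, rfl⟩ := hL
  rw [pow_mul]
  have h : 2 ^ (p - 1) ≡ 1 [MOD p] := by
    have hc : Nat.Coprime 2 p := by
      rw [Nat.coprime_primes Nat.prime_two hp]
      exact fun h => h2 h.symm
    have := Nat.ModEq.pow_totient hc
    rwa [Nat.totient_prime hp] at this
  simpa using h.pow c

/-- the period -/
theorem hit_one_period {p : ℕ} (hp : p.Prime) (h2 : p ≠ 2) {T : ℕ} (h1 : (p - 1) ∣ T) (h3 : p ∣ T) (k : ℕ) :
    ((k + T) * 2 ^ (k + T) ≡ 1 [MOD p]) ↔ (k * 2 ^ k ≡ 1 [MOD p]) := by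
  have e : (k + T) * 2 ^ (k + T) ≡ k * 2 ^ k [MOD p] := by
    rw [pow_add]
    have a1 : k + T ≡ k [MOD p] := by
      have : T ≡ 0 [MOD p] := (Nat.modEq_zero_iff_dvd).2 h3
      simpa using (Nat.ModEq.refl k).add this
    have a2 : 2 ^ k * 2 ^ T ≡ 2 ^ k [MOD p] := by
      simpa using (Nat.ModEq.refl (2 ^ k)).mul (two_pow_modEq hp h2 h1)
    exact a1.mul a2
  exact ⟨fun h => e.symm.trans h, fun h => e.trans h⟩

/-- the step of the induction: a new prime `p` that does not divide the old period -/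
theorem count_step {p : ℕ} (hp : p.Prime) (h2 : p ≠ 2) (A : ℕ → Prop) [DecidablePred A] (L : ℕ) (hL0 : 0 < L)
    (hA : ∀ k, A (k + L) ↔ A k) (hpL : (p - 1) ∣ L) (hcop : Nat.Coprime L p) :
    Nat.count (fun k => A k ∧ k * 2 ^ k ≡ 1 [MOD p]) (L * p) = Nat.count A L := by
  have hper : ∀ m k, A (k + L * m) ↔ A k := by
    intro m
    induction m with
    | zero => intro k; simp
    | succ m ih =>
      intro k
      rw [show k + L * (m + 1) = (k + L * m) + L by ring, hA, ih]
  have hAmod : ∀ k, A k ↔ A (k % L) := by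
    intro k
    conv_lhs => rw [← Nat.mod_add_div k L]
    exact hper _ _
  have hpow : ∀ k, 2 ^ k ≡ 2 ^ (k % L) [MOD p] := by
    intro k
    conv_lhs => rw [← Nat.mod_add_div k L]
    rw [pow_add, pow_mul]
    have := (two_pow_modEq hp h2 hpL).pow (k / L)
    simpa using (Nat.ModEq.refl (2 ^ (k % L))).mul this
  have hc2 : ∀ k, Nat.Coprime p (2 ^ k) := by
    intro k
    apply Nat.Coprime.pow_right
    rw [Nat.coprime_primes hp Nat.prime_two]
    exact h2
  rw [Nat.count_eq_card_filter_range, Nat.count_eq_card_filter_range]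
  apply Finset.card_bij (fun k _ => k % L)
  · intro k hk
    rw [mem_filter, mem_range] at hk ⊢
    exact ⟨Nat.mod_lt _ hL0, (hAmod k).1 hk.2.1⟩
  · intro k hk k' hk' heq
    rw [mem_filter, mem_range] at hk hk'
    have e1 : k ≡ k' [MOD L] := heq
    have e2 : 2 ^ k ≡ 2 ^ k' [MOD p] := by
      refine (hpow k).trans ?_
      have heq' : k % L = k' % L := heq
      rw [heq']
      exact (hpow k').symm
    have e3 : k ≡ k' [MOD p] := by
      have h3 : k * 2 ^ k ≡ k' * 2 ^ k' [MOD p] := hk.2.2.trans hk'.2.2.symm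
      have h4 : k' * 2 ^ k' ≡ k' * 2 ^ k [MOD p] := (Nat.ModEq.refl k').mul e2.symm
      have h5 := h3.trans h4
      exact Nat.ModEq.cancel_right_of_coprime (hc2 k) h5
    have e4 : k ≡ k' [MOD L * p] := (Nat.modEq_and_modEq_iff_modEq_mul hcop).1 ⟨e1, e3⟩
    exact Nat.ModEq.eq_of_lt_of_lt e4 hk.1 hk'.1
  · intro k0 hk0
    rw [mem_filter, mem_range] at hk0
    -- the inverse of `2 ^ k0` modulo `p`
    obtain ⟨c, hc⟩ : ∃ c, c * 2 ^ k0 ≡ 1 [MOD p] := by
      have h3 : Nat.Coprime (2 ^ k0) p := (hc2 k0).symm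
      have h4 := Nat.exists_mul_mod_eq_one_of_coprime h3 hp.one_lt
      obtain ⟨m, -, hm⟩ := h4
      refine ⟨m, ?_⟩
      rw [mul_comm]
      change _ % _ = 1 % p
      rw [hm, Nat.mod_eq_of_lt hp.one_lt]
    obtain ⟨k, hk1, hk2⟩ := Nat.chineseRemainder hcop k0 c
    have hLp : 0 < L * p := Nat.mul_pos hL0 hp.pos
    refine ⟨k % (L * p), ?_, ?_⟩
    · rw [mem_filter, mem_range]
      have m1 : k % (L * p) ≡ k [MOD L] := (Nat.mod_modEq k (L * p)).of_mul_right p
      have m2 : k % (L * p) ≡ k [MOD p] := (Nat.mod_modEq k (L * p)).of_mul_left L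
      have m3 : (k % (L * p)) % L = k0 := by
        have h5 : (k % (L * p)) % L = k0 % L := m1.trans hk1
        rw [h5, Nat.mod_eq_of_lt hk0.1]
      refine ⟨Nat.mod_lt _ hLp, ?_, ?_⟩
      · rw [hAmod, m3]
        exact hk0.2
      · have h6 : k % (L * p) ≡ c [MOD p] := m2.trans hk2
        have h7 : 2 ^ (k % (L * p)) ≡ 2 ^ k0 [MOD p] := by
          have := hpow (k % (L * p))
          rwa [m3] at this
        exact (h6.mul h7).trans hc
    · have m1 : k % (L * p) ≡ k [MOD L] := (Nat.mod_modEq k (L * p)).of_mul_right p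
      have h5 : (k % (L * p)) % L = k0 % L := m1.trans hk1
      change (k % (L * p)) % L = k0
      rw [h5, Nat.mod_eq_of_lt hk0.1]

/-- the period attached to a set of primes -/
def per (S : Finset ℕ) : ℕ := ∏ p ∈ S, (p * (p - 1))

theorem hit_period {S : Finset ℕ} (hS : ∀ p ∈ S, p.Prime ∧ p ≠ 2) {T : ℕ} (hT : per S ∣ T) (k : ℕ) :
    Hit S (k + T) ↔ Hit S k := by
  unfold Hit
  refine forall₂_congr fun p hp => ?_
  have h1 : p * (p - 1) ∣ T := (Finset.dvd_prod_of_mem _ hp).trans hT
  exact hit_one_period (hS p hp).1 (hS p hp).2 ((Dvd.intro_left _ rfl).trans h1) ((Dvd.intro _ rfl).trans h1) k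

theorem per_pos {S : Finset ℕ} (hS : ∀ p ∈ S, p.Prime ∧ p ≠ 2) : 0 < per S := by
  unfold per
  refine Finset.prod_pos fun p hp => ?_
  have := (hS p hp).1.two_le
  exact Nat.mul_pos (by omega) (by omega)

/-- exact count in one period -/
theorem count_period : ∀ S : Finset ℕ, (∀ p ∈ S, p.Prime ∧ p ≠ 2) →
    Nat.count (Hit S) (per S) = ∏ p ∈ S, (p - 1) := by
  intro S
  induction S using Finset.induction_on_max with
  | empty =>
    intro _
    have h : Hit ∅ 0 := by
      intro p hp
      simp at hp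
    have h1 : per ∅ = 0 + 1 := by simp [per]
    rw [h1, Nat.count_succ, if_pos h]
    simp
  | insert p S hmax ih =>
    intro hS
    have hpS : p ∉ S := fun h => lt_irrefl _ (hmax p h)
    have hS' : ∀ q ∈ S, q.Prime ∧ q ≠ 2 := fun q hq => hS q (mem_insert_of_mem hq)
    obtain ⟨hp, h2⟩ := hS p (mem_insert_self _ _)
    have ih' := ih hS'
    have hper : per (insert p S) = (per S * (p - 1)) * p := by
      unfold per
      rw [Finset.prod_insert hpS]
      ring
    have hfun : (Hit (insert p S)) = fun k => Hit S k ∧ k * 2 ^ k ≡ 1 [MOD p] := by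
      funext k
      unfold Hit
      rw [Finset.forall_mem_insert]
      exact propext and_comm
    have hp1 : 0 < p - 1 := by have := hp.two_le; omega
    have hcop : Nat.Coprime (per S * (p - 1)) p := by
      apply Nat.Coprime.mul_left
      · unfold per
        apply Nat.Coprime.prod_left
        intro q hq
        have hqp := hmax q hq
        have hq2 := (hS' q hq).1.two_le
        apply Nat.Coprime.mul_left
        · rw [Nat.coprime_primes (hS' q hq).1 hp]
          omega
        · exact (Nat.coprime_of_lt_prime (by omega) (by omega) hp).symm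
      · exact (Nat.coprime_of_lt_prime (by omega) (by omega) hp).symm
    have hcount : Nat.count (Hit (insert p S)) (per (insert p S)) =
        Nat.count (fun k => Hit S k ∧ k * 2 ^ k ≡ 1 [MOD p]) ((per S * (p - 1)) * p) := by
      rw [hper]
      congr 1
    rw [hcount, count_step hp h2 (Hit S) (per S * (p - 1)) (Nat.mul_pos (per_pos hS') hp1)
      (fun k => hit_period hS' (Dvd.intro _ rfl) k) (Dvd.intro_left _ rfl) hcop,
      show per S * (p - 1) = per S * (p - 1) + 0 by rfl,
      count_blocks (Hit S) (per S) (fun k => hit_period hS' dvd_rfl k), ih', Finset.prod_insert hpS]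
    simp

/-- the number of `k < X` hit by all primes of `S` is `X / d` up to `φ(d)` -/
theorem count_hit (S : Finset ℕ) (hS : ∀ p ∈ S, p.Prime ∧ p ≠ 2) (X : ℕ) :
    |((Nat.count (Hit S) X : ℕ) : ℝ) - X / ((∏ p ∈ S, p : ℕ) : ℝ)| ≤ ((∏ p ∈ S, p : ℕ) : ℝ) := by
  set T := per S with hT
  set N := ∏ p ∈ S, (p - 1) with hN
  set d := ∏ p ∈ S, p with hd
  have hT0 : 0 < T := per_pos hS
  have hTd : T = d * N := by
    rw [hT, hd, hN, per, Finset.prod_mul_distrib]
  have hd0 : 0 < d := Finset.prod_pos fun p hp => (hS p hp).1.pos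
  have hNd : N ≤ d := Finset.prod_le_prod' fun p _ => Nat.sub_le _ _
  have hX : X = T * (X / T) + X % T := (Nat.div_add_mod X T).symm
  have hper := fun k => hit_period hS (dvd_refl (per S)) k
  have hc : Nat.count (Hit S) X = (X / T) * N + Nat.count (Hit S) (X % T) := by
    conv_lhs => rw [hX]
    rw [count_blocks (Hit S) T hper, count_period S hS]
  have hr : Nat.count (Hit S) (X % T) ≤ N := by
    rw [hN, ← count_period S hS]
    exact Nat.count_monotone _ (Nat.mod_lt _ hT0).le
  have hN0 : 0 < N := by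
    rcases Nat.eq_zero_or_pos N with h | h
    · rw [h, mul_zero] at hTd; omega
    · exact h
  have hdR : (0 : ℝ) < d := by exact_mod_cast hd0
  have hNR : (0 : ℝ) < N := by exact_mod_cast hN0
  have hTR : (T : ℝ) = d * N := by exact_mod_cast hTd
  have hTR0 : (0 : ℝ) < T := by exact_mod_cast hT0
  have hXR : (X : ℝ) = T * ((X / T : ℕ) : ℝ) + ((X % T : ℕ) : ℝ) := by exact_mod_cast hX
  have hXd : (X : ℝ) / d = ((X / T : ℕ) : ℝ) * N + ((X % T : ℕ) : ℝ) / d := by
    rw [hXR, hTR]
    field_simp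
  have hcR : ((Nat.count (Hit S) X : ℕ) : ℝ) = ((X / T : ℕ) : ℝ) * N + (Nat.count (Hit S) (X % T) : ℝ) := by
    rw [hc]; push_cast; ring
  have hrR : ((Nat.count (Hit S) (X % T) : ℕ) : ℝ) ≤ d := by exact_mod_cast hr.trans hNd
  have hr2 : ((X % T : ℕ) : ℝ) / d ≤ d := by
    rw [div_le_iff₀ hdR]
    have : ((X % T : ℕ) : ℝ) ≤ T := by exact_mod_cast (Nat.mod_lt X hT0).le
    have hNdR : (N : ℝ) ≤ d := by exact_mod_cast hNd
    calc ((X % T : ℕ) : ℝ) ≤ T := this
      _ = d * N := hTR
      _ ≤ d * d := by gcongr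
  have hr3 : (0 : ℝ) ≤ ((X % T : ℕ) : ℝ) / d := by positivity
  have hc0 : (0 : ℝ) ≤ (Nat.count (Hit S) (X % T) : ℝ) := by positivity
  rw [hcR, hXd, abs_le]
  constructor <;> linarith

end Pool.Agent.H5.WD
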