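import Mathlib
import Pool.Agent.H67.VU.Pv

/-!
[H5 WD Exp]  Exponential sums over the powers of `h` modulo `e`.

`geo`, `harm` are those of `H67/VU/Pv.lean` (private there).  For a unit `a` modulo `e` and the order `t` of `h`:
`T(β) = ∑_{s mod t} e(-a h^s / e) e(β s / t)` satisfies `|T(β)|² ≤ e`, and
`t ∑_{k < X} e(a (k - h^k) / e) = ∑_β T(β) ∑_{k < X} e(k (a/e - β/t))`.
-/

set_option autoImplicit false

namespace Pool.Agent.H5.WD

open Finset

theorem wd_low {q v : ℕ} (h1 : 1 ≤ v) (h2 : v < q) :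
    2 / ‖Pool.Agent.H21.BV.ee ((v : ℝ) / q) - 1‖ ≤
      (q : ℝ) / 2 * (1 / (v : ℝ) + 1 / ((q : ℝ) - v)) := by
  have hv : (0 : ℝ) < v := by exact_mod_cast h1
  have hq : (0 : ℝ) < q := by exact_mod_cast (by omega : 0 < q)
  have hvq : (0 : ℝ) < (q : ℝ) - v := by
    have : (v : ℝ) < q := by exact_mod_cast h2
    linarith
  have h0 : (0 : ℝ) < 1 / (v : ℝ) := by positivity
  have h0' : (0 : ℝ) < 1 / ((q : ℝ) - v) := by positivity
  by_cases hc : 2 * v ≤ q
  · have hc' : 2 * (v : ℝ) ≤ q := by exact_mod_cast hc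
    have hlow := Pool.Agent.H21.BV.fej_low ((v : ℝ) / q) (by
      rw [abs_of_pos (by positivity), div_le_div_iff₀ hq (by norm_num)]
      linarith)
    rw [abs_of_pos (by positivity)] at hlow
    calc 2 / ‖Pool.Agent.H21.BV.ee ((v : ℝ) / q) - 1‖ ≤ 2 / (4 * ((v : ℝ) / q)) :=
          div_le_div_of_nonneg_left (by norm_num) (by positivity) hlow
      _ = (q : ℝ) / 2 * (1 / (v : ℝ)) := by
          field_simp
          norm_num
      _ ≤ _ := by
          apply mul_le_mul_of_nonneg_left _ (by positivity)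
          linarith
  · have hc' : (q : ℝ) ≤ 2 * (v : ℝ) := by exact_mod_cast (by omega : q ≤ 2 * v)
    have hneg : (v : ℝ) / q - 1 ≤ 0 := by
      rw [sub_nonpos, div_le_one hq]
      linarith
    have e1 : Pool.Agent.H21.BV.ee ((v : ℝ) / q) = Pool.Agent.H21.BV.ee ((v : ℝ) / q - 1) := by
      have h3 := Pool.Agent.H21.BV.ee_add ((v : ℝ) / q - 1) 1
      have h4 := Pool.Agent.H21.BV.ee_int 1
      rw [Int.cast_one] at h4
      rw [h4, mul_one, sub_add_cancel] at h3
      exact h3
    have e2 : |(v : ℝ) / q - 1| = ((q : ℝ) - v) / q := by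
      rw [abs_of_nonpos hneg]
      field_simp
      ring
    have hlow := Pool.Agent.H21.BV.fej_low ((v : ℝ) / q - 1) (by
      rw [e2, div_le_div_iff₀ hq (by norm_num)]
      linarith)
    rw [e2] at hlow
    rw [e1]
    calc 2 / ‖Pool.Agent.H21.BV.ee ((v : ℝ) / q - 1) - 1‖ ≤ 2 / (4 * (((q : ℝ) - v) / q)) :=
          div_le_div_of_nonneg_left (by norm_num) (by positivity) hlow
      _ = (q : ℝ) / 2 * (1 / ((q : ℝ) - v)) := by
          field_simp
          norm_num
      _ ≤ _ := by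
          apply mul_le_mul_of_nonneg_left _ (by positivity)
          linarith

theorem wd_geo {q : ℕ} [NeZero q] (b : ZMod q) (hb : b ≠ 0) (m n : ℕ) :
    ‖∑ k ∈ Ioc m n, ZMod.stdAddChar (N := q) ((k : ZMod q) * b)‖ ≤
      (q : ℝ) / 2 * (1 / (b.val : ℝ) + 1 / ((q : ℝ) - b.val)) := by
  have hv1 : 1 ≤ b.val := by
    rw [Nat.one_le_iff_ne_zero, Ne, ZMod.val_eq_zero]
    exact hb
  have hv2 : b.val < q := ZMod.val_lt b
  have hlow := wd_low hv1 hv2
  obtain ⟨z, hz⟩ : ∃ z : ℂ, z = ZMod.stdAddChar (N := q) b := ⟨_, rfl⟩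
  have hze : z = Pool.Agent.H21.BV.ee ((b.val : ℝ) / q) := by
    have h1 : b = ((b.val : ℤ) : ZMod q) := by
      rw [Int.cast_natCast, ZMod.natCast_zmod_val]
    rw [hz]
    conv_lhs => rw [h1]
    rw [ZMod.stdAddChar_coe]
    unfold Pool.Agent.H21.BV.ee
    congr 1
    push_cast
    ring
  have hz1 : z ≠ 1 := by
    intro h
    have h1 : ZMod.stdAddChar (N := q) b = ZMod.stdAddChar (N := q) 0 := by
      rw [← hz, h, AddChar.map_zero_eq_one]
    exact hb (ZMod.injective_stdAddChar h1)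
  rw [← hze] at hlow
  refine le_trans ?_ hlow
  have e1 : ∀ k : ℕ, ZMod.stdAddChar (N := q) ((k : ZMod q) * b) = z ^ k := by
    intro k
    rw [hz, ← nsmul_eq_mul, AddChar.map_nsmul_eq_pow]
  simp only [e1]
  have hzn : ‖z‖ = 1 := by
    rw [hze]
    exact Pool.Agent.H21.BV.norm_ee _
  have hz0 : 0 < ‖z - 1‖ := by
    rw [norm_pos_iff, sub_ne_zero]
    exact hz1
  rcases le_total m n with hmn | hmn
  · have h2 : Ioc m n = Ico (m + 1) (n + 1) := by
      ext k
      rw [mem_Ioc, mem_Ico]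
      omega
    rw [h2, geom_sum_Ico hz1 (by omega), norm_div]
    apply div_le_div_of_nonneg_right _ hz0.le
    calc ‖z ^ (n + 1) - z ^ (m + 1)‖ ≤ ‖z ^ (n + 1)‖ + ‖z ^ (m + 1)‖ := norm_sub_le _ _
      _ = 2 := by
        rw [norm_pow, norm_pow, hzn]
        norm_num
  · rw [Finset.Ioc_eq_empty_iff.2 (by omega), Finset.sum_empty, norm_zero]
    positivity

theorem wd_harm (q : ℕ) (hq : 1 ≤ q) :
    ∑ v ∈ Ico 1 q, (1 / (v : ℝ) + 1 / ((q : ℝ) - v)) ≤ 2 * (1 + Real.log q) := by
  rw [Finset.sum_add_distrib]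
  have h1 : ∑ v ∈ Ico 1 q, 1 / ((q : ℝ) - v) = ∑ v ∈ Ico 1 q, 1 / (v : ℝ) := by
    refine Finset.sum_nbij' (fun v => q - v) (fun v => q - v) ?_ ?_ ?_ ?_ ?_
    · intro v hv
      rw [mem_Ico] at hv ⊢
      omega
    · intro v hv
      rw [mem_Ico] at hv ⊢
      omega
    · intro v hv
      rw [mem_Ico] at hv
      omega
    · intro v hv
      rw [mem_Ico] at hv
      omega
    · intro v hv
      rw [mem_Ico] at hv
      rw [Nat.cast_sub (by omega)]
  have h2 : ∑ v ∈ Ico 1 q, 1 / (v : ℝ) ≤ 1 + Real.log q := by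
    have h3 := harmonic_le_one_add_log q
    refine le_trans ?_ h3
    unfold harmonic
    push_cast
    rw [Finset.sum_Ico_eq_sum_range]
    calc ∑ k ∈ range (q - 1), 1 / (((1 + k : ℕ)) : ℝ)
        = ∑ k ∈ range (q - 1), ((k : ℝ) + 1)⁻¹ := by
          refine Finset.sum_congr rfl fun k _ => ?_
          push_cast
          rw [one_div, add_comm]
      _ ≤ ∑ k ∈ range q, ((k : ℝ) + 1)⁻¹ := by
          apply Finset.sum_le_sum_of_subset_of_nonneg
          · exact range_subset_range.2 (by omega)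
          · intro k _ _
            positivity
  rw [h1]
  linarith

/-- the weight of a frequency -/
noncomputable def gw (N v : ℕ) : ℝ := (N : ℝ) / 2 * (1 / (v : ℝ) + 1 / ((N : ℝ) - v))

theorem gw_nonneg {N v : ℕ} (h : v < N) : 0 ≤ gw N v := by
  unfold gw
  have : (v : ℝ) < N := by exact_mod_cast h
  have h1 : 0 < (N : ℝ) - v := by linarith
  have h2 : (0 : ℝ) ≤ v := Nat.cast_nonneg _
  have h3 : (0 : ℝ) ≤ N := Nat.cast_nonneg _
  positivity

/-- the sum of the weights over the values of a homomorphism -/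
theorem sum_hom {G : Type} [AddCommGroup G] [Fintype G] {N : ℕ} [NeZero N] (hG : Fintype.card G = N)
    (φ : G →+ ZMod N) :
    ∑ x : G, (if φ x = 0 then (0 : ℝ) else gw N (φ x).val) ≤ N * (1 + Real.log N) := by
  classical
  have hN : 0 < N := Nat.pos_of_ne_zero (NeZero.ne N)
  have hNR : (0 : ℝ) < N := by exact_mod_cast hN
  set R : Finset (ZMod N) := univ.image φ with hR
  set κ : ℕ := (univ.filter fun x : G => φ x = 0).card with hκ
  have hfib : ∀ c ∈ R, (univ.filter fun x : G => φ x = c).card = κ := by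
    intro c hc
    obtain ⟨x, -, rfl⟩ := mem_image.1 hc
    exact AddMonoidHom.card_fiber_eq_of_mem_range φ ⟨x, rfl⟩ ⟨0, map_zero φ⟩
  have hNr : N = κ * R.card := by
    have h1 := Finset.card_eq_sum_card_image φ (univ : Finset G)
    rw [Finset.card_univ, hG] at h1
    refine h1.trans ?_
    rw [Finset.sum_congr rfl hfib, Finset.sum_const, smul_eq_mul, mul_comm]
  set r := R.card with hr
  have hr0 : 0 < r := by
    rcases Nat.eq_zero_or_pos r with h | h
    · rw [h, mul_zero] at hNr; omega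
    · exact h
  have hκ0 : 0 < κ := by
    rcases Nat.eq_zero_or_pos κ with h | h
    · rw [h, zero_mul] at hNr; omega
    · exact h
  have hκR : (0 : ℝ) < κ := by exact_mod_cast hκ0
  have hrR : (0 : ℝ) < r := by exact_mod_cast hr0
  have hNrR : (N : ℝ) = κ * r := by exact_mod_cast hNr
  have hsum : ∑ x : G, (if φ x = 0 then (0 : ℝ) else gw N (φ x).val) =
      κ * ∑ c ∈ R, (if c = 0 then (0 : ℝ) else gw N c.val) := by
    rw [← Finset.sum_fiberwise_of_maps_to (s := univ) (t := R) (g := φ)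
      (fun x _ => mem_image_of_mem _ (mem_univ x)), Finset.mul_sum]
    refine Finset.sum_congr rfl fun c hc => ?_
    have h1 : ∑ x ∈ univ.filter (fun x : G => φ x = c), (if φ x = 0 then (0 : ℝ) else gw N (φ x).val) =
        ∑ x ∈ univ.filter (fun x : G => φ x = c), (if c = 0 then (0 : ℝ) else gw N c.val) := by
      refine Finset.sum_congr rfl fun x hx => ?_
      rw [(mem_filter.1 hx).2]
    rw [h1, Finset.sum_const, hfib c hc, nsmul_eq_mul]
  -- the values are multiples of `κ`
  have hmul : ∀ c ∈ R, κ ∣ c.val := by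
    intro c hc
    obtain ⟨x, -, rfl⟩ := mem_image.1 hc
    have h1 : Nat.card φ.range = r := by
      rw [Nat.card_eq_fintype_card, hr, hR]
      rw [← Fintype.card_coe]
      refine Fintype.card_congr (Equiv.subtypeEquivRight fun c => ?_)
      simp
    have h2 : r • φ x = 0 := by
      have h3 := card_nsmul_eq_zero' (G := φ.range) (x := ⟨φ x, x, rfl⟩)
      rw [h1] at h3
      have h4 := congrArg Subtype.val h3
      simpa using h4
    have h3 : ((r * (φ x).val : ℕ) : ZMod N) = 0 := by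
      rw [Nat.cast_mul, ZMod.natCast_zmod_val, ← nsmul_eq_mul]
      exact h2
    rw [ZMod.natCast_eq_zero_iff] at h3
    obtain ⟨u, hu⟩ := h3
    refine ⟨u, Nat.eq_of_mul_eq_mul_left hr0 ?_⟩
    calc r * (φ x).val = N * u := hu
      _ = κ * r * u := by rw [← hNr]
      _ = r * (κ * u) := by ring
  have hbound : ∑ c ∈ R, (if c = 0 then (0 : ℝ) else gw N c.val) ≤
      ∑ v ∈ Ico 1 r, (r : ℝ) / 2 * (1 / (v : ℝ) + 1 / ((r : ℝ) - v)) := by
    rw [← Finset.sum_filter_add_sum_filter_not R (fun c => c = 0)]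
    have h0 : ∑ c ∈ R.filter (fun c => c = 0), (if c = 0 then (0 : ℝ) else gw N c.val) = 0 := by
      refine Finset.sum_eq_zero fun c hc => ?_
      rw [if_pos (mem_filter.1 hc).2]
    rw [h0, zero_add]
    have h1 : ∑ c ∈ R.filter (fun c => ¬ c = 0), (if c = 0 then (0 : ℝ) else gw N c.val) =
        ∑ v ∈ (R.filter (fun c => ¬ c = 0)).image (fun c => c.val / κ),
          (r : ℝ) / 2 * (1 / (v : ℝ) + 1 / ((r : ℝ) - v)) := by
      rw [Finset.sum_image]
      · refine Finset.sum_congr rfl fun c hc => ?_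
        obtain ⟨hc1, hc2⟩ := mem_filter.1 hc
        rw [if_neg hc2]
        obtain ⟨v, hv⟩ := hmul c hc1
        have h2 : c.val / κ = v := by rw [hv, Nat.mul_div_cancel_left _ hκ0]
        have h3 : v < r := by
          have := ZMod.val_lt c
          rw [hv, hNr] at this
          exact Nat.lt_of_mul_lt_mul_left this
        have h4 : v ≠ 0 := by
          rintro rfl
          rw [mul_zero, ZMod.val_eq_zero] at hv
          exact hc2 hv
        rw [h2, hv]
        unfold gw
        rw [hNrR]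
        push_cast
        have h5 : (v : ℝ) ≠ 0 := by exact_mod_cast h4
        have h6 : (r : ℝ) - v ≠ 0 := by
          have : (v : ℝ) < r := by exact_mod_cast h3
          linarith
        have h7 : (κ : ℝ) * r - κ * v ≠ 0 := by
          rw [← mul_sub]
          exact mul_ne_zero hκR.ne' h6
        have h8 : (κ : ℝ) * r - κ * v = κ * (r - v) := by ring
        rw [h8]
        field_simp
      · intro c hc c' hc' h
        have hc1 := (mem_filter.1 (Finset.mem_coe.1 hc)).1
        have hc1' := (mem_filter.1 (Finset.mem_coe.1 hc')).1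
        obtain ⟨v, hv⟩ := hmul c hc1
        obtain ⟨v', hv'⟩ := hmul c' hc1'
        have h' : c.val / κ = c'.val / κ := h
        rw [hv, hv', Nat.mul_div_cancel_left _ hκ0, Nat.mul_div_cancel_left _ hκ0] at h'
        apply ZMod.val_injective
        rw [hv, hv', h']
    rw [h1]
    refine Finset.sum_le_sum_of_subset_of_nonneg ?_ ?_
    · intro v hv
      obtain ⟨c, hc, rfl⟩ := mem_image.1 hv
      obtain ⟨hc1, hc2⟩ := mem_filter.1 hc
      obtain ⟨v, hv⟩ := hmul c hc1
      rw [hv, Nat.mul_div_cancel_left _ hκ0, mem_Ico]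
      have h3 : v < r := by
        have := ZMod.val_lt c
        rw [hv, hNr] at this
        exact Nat.lt_of_mul_lt_mul_left this
      have h4 : v ≠ 0 := by
        rintro rfl
        rw [mul_zero, ZMod.val_eq_zero] at hv
        exact hc2 hv
      omega
    · intro v hv _
      have h3 : v < r := (mem_Ico.1 hv).2
      exact gw_nonneg (N := r) h3
  have hharm := wd_harm r hr0
  rw [← Finset.mul_sum] at hbound
  have h2 : (r : ℝ) / 2 * ∑ v ∈ Ico 1 r, (1 / (v : ℝ) + 1 / ((r : ℝ) - v)) ≤ r * (1 + Real.log r) := by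
    have := mul_le_mul_of_nonneg_left hharm (show (0 : ℝ) ≤ (r : ℝ) / 2 by positivity)
    linarith
  have h3 : Real.log r ≤ Real.log N := by
    apply Real.log_le_log hrR
    rw [hNrR]
    have : (1 : ℝ) ≤ κ := by exact_mod_cast hκ0
    nlinarith
  rw [hsum]
  calc (κ : ℝ) * ∑ c ∈ R, (if c = 0 then (0 : ℝ) else gw N c.val) ≤ κ * (r * (1 + Real.log r)) :=
        mul_le_mul_of_nonneg_left (hbound.trans h2) hκR.le
    _ ≤ κ * (r * (1 + Real.log N)) := by gcongr
    _ = N * (1 + Real.log N) := by rw [hNrR]; ring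

end Pool.Agent.H5.WD
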