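import Mathlib
import Pool.Agent.H89.P2.Dy
import Pool.Agent.H89.P2.Ri
import Pool.Agent.H89.P2.Mt
import Pool.Agent.H89.P2.Ab

/-!
[H5 WD Lin]  The lower linear sieve in the presieved model, with positive mean for `2 θ < D`.
-/

set_option autoImplicit false

namespace Pool.Agent.H5.WD

open Finset Pool.Agent.H89.P2

theorem size_perm {P Q : List ℕ} (h : P.Perm Q) : size P = size Q := by
  unfold size
  exact (h.map _).sum_eq

theorem size_append (P Q : List ℕ) : size (P ++ Q) = size P + size Q := by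
  simp [size]

theorem size_lower (J m M : ℕ) (hM : 2 * m ≤ M) (w : ℝ × List ℕ) (hw : w ∈ sv J m false M) :
    size w.2 ≤ M := by
  obtain ⟨P1, P2, h1, h2, h3⟩ := (spl_sv J m).1 M hM w hw M 0 (by omega)
  rw [← size_perm h1, size_append]
  omega

/-- existence of good lower sieves -/
theorem lower_exist (θ D : ℝ) (hθ : 0 < θ) (hD : 2 * θ < D) (hD3 : D ≤ 3 * θ) :
    ∃ c : ℝ, 0 < c ∧ ∀ a : ℝ, 0 < a → a < θ → ∃ J0 : ℕ, 0 < J0 ∧ ∀ J : ℕ, J0 ≤ J →
      ∃ m M : ℕ, J ≤ m ∧ 2 * m ≤ M ∧ θ < (m : ℝ) * (a / J) ∧ (m : ℝ) * (a / J) ≤ 2 * θ ∧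
        (M : ℝ) * (a / J) ≤ D ∧ c * a ≤ mv (sv J m false M) mu := by
  set s1 : ℝ := (2 + D / θ) / 2 with hs1
  have hDθ : 2 < D / θ := by rwa [lt_div_iff₀ hθ]
  have hDθ3 : D / θ ≤ 3 := by rwa [div_le_iff₀ hθ]
  have hs12 : 2 < s1 := by rw [hs1]; linarith
  have hs1D : s1 < D / θ := by rw [hs1]; linarith
  have hs13 : s1 < 3 := by linarith
  have hlog : 0 < Real.log (s1 - 1) := Real.log_pos (by linarith)
  set φ : ℝ := 3 / s1 * Real.log (s1 - 1) with hφ
  have hφ0 : 0 < φ := by positivity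
  refine ⟨φ / (4 * θ), by positivity, ?_⟩
  intro a ha haθ
  set S : ℝ := D / a + 4 with hS
  have hD0 : 0 < D := by linarith
  have hS4 : 4 ≤ S := by rw [hS]; have : 0 < D / a := by positivity
                         linarith
  obtain ⟨A, F, f, h⟩ := ff_exists S hS4
  have hA := h.hA
  set E0 : ℝ := 32 * A * Real.exp (6 * S) with hE0
  have hE0p : 0 < E0 := by positivity
  -- the width threshold
  set δ0 : ℝ := θ * (D / θ - s1) / (2 * (1 + s1)) with hδ0
  have hδ0p : 0 < δ0 := by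
    have : 0 < D / θ - s1 := by linarith
    positivity
  obtain ⟨J0, hJ0⟩ := exists_nat_ge (max (a / δ0) (max (a / θ) (max (4 * θ * E0 / (φ * a)) 1)))
  have hJ01 : (1 : ℝ) ≤ J0 := (le_max_right _ _).trans ((le_max_right _ _).trans ((le_max_right _ _).trans hJ0))
  refine ⟨J0, by
    have : (0 : ℝ) < J0 := by linarith
    exact_mod_cast this, ?_⟩
  intro J hJ
  have hJR : (J0 : ℝ) ≤ J := by exact_mod_cast hJ
  have hJa : a / δ0 ≤ J := ((le_max_left _ _).trans hJ0).trans hJR
  have hJb : a / θ ≤ J := (((le_max_left _ _).trans (le_max_right _ _)).trans hJ0).trans hJR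
  have hJc : 4 * θ * E0 / (φ * a) ≤ J :=
    (((le_max_left _ _).trans ((le_max_right _ _).trans (le_max_right _ _))).trans hJ0).trans hJR
  have hJp : (0 : ℝ) < J := by linarith
  have hJN : 0 < J := by exact_mod_cast hJp
  set δ : ℝ := a / J with hδ
  have hδp : 0 < δ := by positivity
  have hδ1 : δ ≤ δ0 := by
    rw [hδ, div_le_iff₀ hJp]
    rw [div_le_iff₀ hδ0p] at hJa
    linarith
  have hδ2 : δ ≤ θ := by
    rw [hδ, div_le_iff₀ hJp]
    rw [div_le_iff₀ hθ] at hJb
    linarith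
  have hJδ : (J : ℝ) * δ = a := by rw [hδ]; field_simp
  set m : ℕ := ⌊θ / δ⌋₊ + 1 with hm
  set M : ℕ := ⌊D / δ⌋₊ with hM
  have hm1 : θ < (m : ℝ) * δ := by
    have := Nat.lt_floor_add_one (θ / δ)
    rw [div_lt_iff₀ hδp] at this
    rw [hm]
    push_cast
    exact this
  have hm2 : (m : ℝ) * δ ≤ θ + δ := by
    have := Nat.floor_le (show 0 ≤ θ / δ by positivity)
    rw [le_div_iff₀ hδp] at this
    rw [hm]
    push_cast
    linarith
  have hM1 : (M : ℝ) * δ ≤ D := by
    have := Nat.floor_le (show 0 ≤ D / δ by positivity)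
    rw [le_div_iff₀ hδp] at this
    exact this
  have hM2 : D - δ < (M : ℝ) * δ := by
    have := Nat.lt_floor_add_one (D / δ)
    rw [div_lt_iff₀ hδp] at this
    linarith
  have hm0 : (0 : ℝ) < m := by
    by_contra hcon
    rw [not_lt] at hcon
    nlinarith
  -- the key inequality `s1 m ≤ M`
  have hkey : s1 * m ≤ M := by
    have h1 : s1 * (θ + δ) ≤ D - δ := by
      have h2 : δ * (1 + s1) ≤ δ0 * (1 + s1) := mul_le_mul_of_nonneg_right hδ1 (by linarith)
      have h3 : δ0 * (1 + s1) = θ * (D / θ - s1) / 2 := by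
        rw [hδ0]
        field_simp
      have h4 : θ * (D / θ - s1) = D - θ * s1 := by
        field_simp
      have h5 : 0 < D - θ * s1 := by
        rw [lt_div_iff₀ hθ] at hs1D
        linarith
      nlinarith
    have h2 : s1 * ((m : ℝ) * δ) ≤ (M : ℝ) * δ := by
      have := mul_le_mul_of_nonneg_left hm2 (by linarith : (0 : ℝ) ≤ s1)
      linarith
    have h3 : (s1 * m) * δ ≤ M * δ := by linarith
    exact le_of_mul_le_mul_right h3 hδp
  have hJm : J ≤ m := by
    have h1 : (J : ℝ) * δ ≤ m * δ := by rw [hJδ]; linarith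
    exact_mod_cast le_of_mul_le_mul_right h1 hδp
  have h2mM : 2 * m ≤ M := by
    have : (2 : ℝ) * m ≤ M := by nlinarith
    exact_mod_cast this
  have hSJ : (M : ℝ) ≤ S * J := by
    have h1 : (M : ℝ) * δ ≤ (S * J) * δ := by
      rw [mul_assoc, hJδ, hS, add_mul, div_mul_cancel₀ _ ha.ne']
      linarith
    exact le_of_mul_le_mul_right h1 hδp
  refine ⟨m, M, hJm, h2mM, hm1, by linarith, hM1, ?_⟩
  refine le_trans ?_ (main_low h hJN hJm h2mM hSJ)
  have hMm : s1 ≤ (M : ℝ) / m := by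
    rw [le_div_iff₀ hm0]
    exact hkey
  have hMmS : (M : ℝ) / m ≤ S := by
    rw [div_le_iff₀ hm0]
    refine hSJ.trans ?_
    have : (J : ℝ) ≤ m := by exact_mod_cast hJm
    exact mul_le_mul_of_nonneg_left this (by linarith)
  have hf1 : φ ≤ f ((M : ℝ) / m) := by
    refine le_trans ?_ (h.fm s1 _ hMm hMmS)
    rw [h.f4 s1 hs12.le (by linarith), hφ]
    have : 3 / s1 ≤ A / s1 := div_le_div_of_nonneg_right hA (by linarith)
    exact mul_le_mul_of_nonneg_right this hlog.le
  have hJm2 : a / (2 * θ) ≤ (J : ℝ) / m := by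
    rw [div_le_div_iff₀ (by positivity) hm0]
    have h1 : a * m = J * (m * δ) := by rw [← hJδ]; ring
    rw [h1]
    exact mul_le_mul_of_nonneg_left (by linarith) hJp.le
  have hEr : Er A J M m ≤ φ * a / (4 * θ) := by
    unfold Er
    have h5 : Real.exp (6 * (M : ℝ) / J) ≤ Real.exp (6 * S) := by
      apply Real.exp_le_exp.2
      rw [div_le_iff₀ hJp]
      linarith
    have hJmR : (J : ℝ) ≤ m := by exact_mod_cast hJm
    have h6 : 2 / (J : ℝ) - 1 / m ≤ 2 / J := by
      have : 0 < 1 / (m : ℝ) := by positivity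
      linarith
    have h7 : 0 ≤ 2 / (J : ℝ) - 1 / m := by
      have h8 := one_div_le_one_div_of_le hJp hJmR
      have h9 : 2 / (J : ℝ) = 1 / J + 1 / J := by ring
      have h10 : 0 < 1 / (J : ℝ) := by positivity
      rw [h9]
      linarith
    have h8 : 16 * A * Real.exp (6 * (M : ℝ) / J) * (2 / J - 1 / m) ≤
        16 * A * Real.exp (6 * S) * (2 / J) := by
      apply mul_le_mul _ h6 h7 (by positivity)
      exact mul_le_mul_of_nonneg_left h5 (by positivity)
    refine h8.trans ?_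
    have h9 : 16 * A * Real.exp (6 * S) * (2 / J) = E0 / J := by
      rw [hE0]
      ring
    rw [h9, div_le_div_iff₀ hJp (by positivity)]
    rw [div_le_iff₀ (by positivity)] at hJc
    linarith
  have h10 : a / (2 * θ) * φ ≤ (J : ℝ) / m * f (M / m) :=
    mul_le_mul hJm2 hf1 hφ0.le (by positivity)
  have h11 : φ / (4 * θ) * a = a / (2 * θ) * φ - φ * a / (4 * θ) := by
    field_simp
    ring
  rw [h11]
  linarith

end Pool.Agent.H5.WD
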