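import Mathlib
import Pool.Agent.H5.WD.Count
import Pool.Agent.H95.FL.Main
import Pool.Agent.H61.UN.Mt

/-!
[H5 WD Sieve]  Sieve coefficients against the sequence `k 2^k - 1`, given a level of distribution.
-/

set_option autoImplicit false

namespace Pool.Agent.H5.WD

open Finset

/-- indicator of `Hit` -/
noncomputable def hi (S : Finset ℕ) (k : ℕ) : ℝ := if Hit S k then 1 else 0

theorem hi_eq_prod (S : Finset ℕ) (k : ℕ) :
    hi S k = ∏ p ∈ S, (if k * 2 ^ k ≡ 1 [MOD p] then (1 : ℝ) else 0) := by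
  rw [Finset.prod_boole]
  rfl

theorem hi_union {S E : Finset ℕ} (h : Disjoint S E) (k : ℕ) : hi (S ∪ E) k = hi S k * hi E k := by
  rw [hi_eq_prod, hi_eq_prod, hi_eq_prod, Finset.prod_union h]

theorem hi_nonneg (S : Finset ℕ) (k : ℕ) : 0 ≤ hi S k := by
  unfold hi; split_ifs <;> norm_num

theorem hi_le_one (S : Finset ℕ) (k : ℕ) : hi S k ≤ 1 := by
  unfold hi; split_ifs <;> norm_num

/-- inclusion and exclusion for the small primes -/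
theorem incl_excl (S : Finset ℕ) (k : ℕ) :
    (if ∀ p ∈ S, ¬ (k * 2 ^ k ≡ 1 [MOD p]) then (1 : ℝ) else 0) =
      ∑ E ∈ S.powerset, (-1 : ℝ) ^ E.card * hi E k := by
  have h1 : (if ∀ p ∈ S, ¬ (k * 2 ^ k ≡ 1 [MOD p]) then (1 : ℝ) else 0) =
      ∏ p ∈ S, (1 + -(if k * 2 ^ k ≡ 1 [MOD p] then (1 : ℝ) else 0)) := by
    rw [← Finset.prod_boole]
    refine Finset.prod_congr rfl fun p _ => ?_
    by_cases h : k * 2 ^ k ≡ 1 [MOD p] <;> simp [h]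
  rw [h1, Finset.prod_one_add]
  refine Finset.sum_congr rfl fun E _ => ?_
  rw [hi_eq_prod, Finset.prod_neg]

/-- sum of `hi` over `k < Y` -/
theorem sum_hi (S : Finset ℕ) (Y : ℕ) : ∑ k ∈ range Y, hi S k = (Nat.count (Hit S) Y : ℝ) := by
  rw [Nat.count_eq_card_filter_range, Finset.card_filter]
  push_cast
  rfl

theorem prod_inv_eq (S : Finset ℕ) : ∏ p ∈ S, (1 / (p : ℝ)) = 1 / ((∏ p ∈ S, p : ℕ) : ℝ) := by
  rw [Finset.prod_div_distrib]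
  simp

theorem V_eq (S : Finset ℕ) : ∏ p ∈ S, (1 - 1 / (p : ℝ)) =
    ∑ E ∈ S.powerset, (-1 : ℝ) ^ E.card * (1 / ((∏ p ∈ E, p : ℕ) : ℝ)) := by
  have h1 : ∏ p ∈ S, (1 - 1 / (p : ℝ)) = ∏ p ∈ S, (1 + -(1 / (p : ℝ))) := by
    refine Finset.prod_congr rfl fun p _ => by ring
  rw [h1, Finset.prod_one_add]
  refine Finset.sum_congr rfl fun E _ => ?_
  rw [Finset.prod_neg, prod_inv_eq]

/-- level of distribution: the number of `k < X` with `d ∣ k 2^k - 1` is `X/d + O(d^κ)` -/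
def Lev (κ C : ℝ) : Prop := ∀ S : Finset ℕ, (∀ p ∈ S, p.Prime ∧ p ≠ 2) → ∀ X : ℕ,
  |((Nat.count (Hit S) X : ℕ) : ℝ) - X / ((∏ p ∈ S, p : ℕ) : ℝ)| ≤ C * ((∏ p ∈ S, p : ℕ) : ℝ) ^ κ

/-- the trivial level of distribution -/
theorem lev_one : Lev 1 1 := by
  intro S hS X
  rw [Real.rpow_one, one_mul]
  exact count_hit S hS X

theorem one_le_prod {S : Finset ℕ} (h : ∀ p ∈ S, p.Prime ∧ p ≠ 2) : (1 : ℝ) ≤ ((∏ p ∈ S, p : ℕ) : ℝ) := by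
  have : 1 ≤ ∏ p ∈ S, p := Nat.succ_le_of_lt (Finset.prod_pos fun p hp => (h p hp).1.pos)
  exact_mod_cast this

/-- the weighted sum against sieve coefficients, for the `k` hit by all primes of `Q` -/
theorem main_sum {κ C : ℝ} (hκ0 : 0 ≤ κ) (hκ1 : κ ≤ 1) (hC : 0 ≤ C) (hL : Lev κ C)
    (S0 P Q : Finset ℕ) (hd : Disjoint S0 P) (hdQ : Disjoint (S0 ∪ P) Q)
    (h0 : ∀ p ∈ S0, p.Prime ∧ p ≠ 2)
    (hP : ∀ p ∈ P, p.Prime ∧ p ≠ 2) (hQ : ∀ p ∈ Q, p.Prime ∧ p ≠ 2)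
    (Y : ℕ) (phi : Finset ℕ → ℝ) (M : ℝ)
    (hsupp : ∀ S, phi S ≠ 0 → ((∏ p ∈ S, p : ℕ) : ℝ) ≤ M)
    (hmass : ∑ S ∈ P.powerset, |phi S| ≤ M) (hM : 0 ≤ M) :
    |∑ k ∈ range Y, (if ∀ p ∈ S0, ¬ (k * 2 ^ k ≡ 1 [MOD p]) then (1 : ℝ) else 0) *
        (∑ S ∈ P.powerset, phi S * hi S k) * hi Q k -
      Y / ((∏ p ∈ Q, p : ℕ) : ℝ) * (∏ p ∈ S0, (1 - 1 / (p : ℝ))) *
        ∑ S ∈ P.powerset, phi S * ∏ p ∈ S, (1 / (p : ℝ))| ≤
    C * ((∏ p ∈ Q, p : ℕ) : ℝ) ^ κ * (M * M * ∑ E ∈ S0.powerset, ((∏ p ∈ E, p : ℕ) : ℝ)) := by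
  have hdis : ∀ S ∈ P.powerset, ∀ E ∈ S0.powerset, Disjoint E S ∧ Disjoint (E ∪ S) Q := by
    intro S hS E hE
    rw [mem_powerset] at hS hE
    refine ⟨Finset.disjoint_of_subset_left hE (Finset.disjoint_of_subset_right hS hd), ?_⟩
    exact Finset.disjoint_of_subset_left (Finset.union_subset_union hE hS) hdQ
  have e1 : ∑ k ∈ range Y, (if ∀ p ∈ S0, ¬ (k * 2 ^ k ≡ 1 [MOD p]) then (1 : ℝ) else 0) *
        (∑ S ∈ P.powerset, phi S * hi S k) * hi Q k =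
      ∑ S ∈ P.powerset, ∑ E ∈ S0.powerset, phi S * (-1 : ℝ) ^ E.card *
        (Nat.count (Hit (E ∪ S ∪ Q)) Y : ℝ) := by
    have : ∀ k ∈ range Y, (if ∀ p ∈ S0, ¬ (k * 2 ^ k ≡ 1 [MOD p]) then (1 : ℝ) else 0) *
        (∑ S ∈ P.powerset, phi S * hi S k) * hi Q k =
        ∑ S ∈ P.powerset, ∑ E ∈ S0.powerset, phi S * (-1 : ℝ) ^ E.card * hi (E ∪ S ∪ Q) k := by
      intro k _
      rw [incl_excl, Finset.sum_mul_sum, Finset.sum_comm, Finset.sum_mul]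
      refine Finset.sum_congr rfl fun S hS => ?_
      rw [Finset.sum_mul]
      refine Finset.sum_congr rfl fun E hE => ?_
      rw [hi_union (hdis S hS E hE).2, hi_union (hdis S hS E hE).1]
      ring
    rw [Finset.sum_congr rfl this, Finset.sum_comm]
    refine Finset.sum_congr rfl fun S _ => ?_
    rw [Finset.sum_comm]
    refine Finset.sum_congr rfl fun E _ => ?_
    rw [← Finset.mul_sum, sum_hi]
  have e2 : Y / ((∏ p ∈ Q, p : ℕ) : ℝ) * (∏ p ∈ S0, (1 - 1 / (p : ℝ))) *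
        ∑ S ∈ P.powerset, phi S * ∏ p ∈ S, (1 / (p : ℝ)) =
      ∑ S ∈ P.powerset, ∑ E ∈ S0.powerset, phi S * (-1 : ℝ) ^ E.card *
        (Y / ((∏ p ∈ E ∪ S ∪ Q, p : ℕ) : ℝ)) := by
    rw [V_eq, mul_assoc, Finset.sum_mul_sum, Finset.mul_sum, Finset.sum_comm]
    have : ∀ E ∈ S0.powerset, (Y : ℝ) / ((∏ p ∈ Q, p : ℕ) : ℝ) *
        ∑ S ∈ P.powerset, (-1 : ℝ) ^ E.card * (1 / ((∏ p ∈ E, p : ℕ) : ℝ)) *
        (phi S * ∏ p ∈ S, (1 / (p : ℝ))) =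
        ∑ S ∈ P.powerset, phi S * (-1 : ℝ) ^ E.card * (Y / ((∏ p ∈ E ∪ S ∪ Q, p : ℕ) : ℝ)) := by
      intro E hE
      rw [Finset.mul_sum]
      refine Finset.sum_congr rfl fun S hS => ?_
      rw [Finset.prod_union (hdis S hS E hE).2, Finset.prod_union (hdis S hS E hE).1,
        prod_inv_eq]
      rw [mem_powerset] at hS hE
      have n1 : ((∏ p ∈ E, p : ℕ) : ℝ) ≠ 0 := by
        have := one_le_prod (fun p hp => h0 p (hE hp)); positivity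
      have n2 : ((∏ p ∈ S, p : ℕ) : ℝ) ≠ 0 := by
        have := one_le_prod (fun p hp => hP p (hS hp)); positivity
      have n3 : ((∏ p ∈ Q, p : ℕ) : ℝ) ≠ 0 := by
        have := one_le_prod hQ; positivity
      rw [Nat.cast_mul, Nat.cast_mul]
      field_simp
    rw [Finset.sum_congr rfl this]
  rw [e1, e2, ← Finset.sum_sub_distrib]
  refine (Finset.abs_sum_le_sum_abs _ _).trans ?_
  have hQ0 : (0 : ℝ) ≤ ((∏ p ∈ Q, p : ℕ) : ℝ) := Nat.cast_nonneg _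
  have key : ∀ S ∈ P.powerset,
      |∑ E ∈ S0.powerset, phi S * (-1 : ℝ) ^ E.card * (Nat.count (Hit (E ∪ S ∪ Q)) Y : ℝ) -
        ∑ E ∈ S0.powerset, phi S * (-1 : ℝ) ^ E.card * (Y / ((∏ p ∈ E ∪ S ∪ Q, p : ℕ) : ℝ))| ≤
      |phi S| * (C * ((∏ p ∈ Q, p : ℕ) : ℝ) ^ κ * (M * ∑ E ∈ S0.powerset, ((∏ p ∈ E, p : ℕ) : ℝ))) := by
    intro S hS
    by_cases hphi : phi S = 0
    · simp [hphi]
    rw [← Finset.sum_sub_distrib]
    refine (Finset.abs_sum_le_sum_abs _ _).trans ?_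
    rw [Finset.mul_sum, Finset.mul_sum, Finset.mul_sum]
    refine Finset.sum_le_sum fun E hE => ?_
    rw [← mul_sub, abs_mul, abs_mul]
    have h1 : |(-1 : ℝ) ^ E.card| = 1 := by simp
    rw [h1, mul_one]
    refine mul_le_mul_of_nonneg_left ?_ (abs_nonneg _)
    have hdd := hdis S hS E hE
    rw [mem_powerset] at hS hE
    refine (hL (E ∪ S ∪ Q) ?_ Y).trans ?_
    · intro p hp
      rcases Finset.mem_union.1 hp with hp | h
      · rcases Finset.mem_union.1 hp with h | h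
        · exact h0 p (hE h)
        · exact hP p (hS h)
      · exact hQ p h
    · rw [Finset.prod_union hdd.2, Finset.prod_union hdd.1, Nat.cast_mul, Nat.cast_mul,
        Real.mul_rpow (by positivity) hQ0]
      have n1 := one_le_prod (fun p hp => h0 p (hE hp))
      have n2 := one_le_prod (fun p hp => hP p (hS hp))
      have h2 := hsupp S hphi
      have h3 : (((∏ p ∈ E, p : ℕ) : ℝ) * ((∏ p ∈ S, p : ℕ) : ℝ)) ^ κ ≤
          M * ((∏ p ∈ E, p : ℕ) : ℝ) := by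
        have h4 : (1 : ℝ) ≤ ((∏ p ∈ E, p : ℕ) : ℝ) * ((∏ p ∈ S, p : ℕ) : ℝ) := one_le_mul_of_one_le_of_one_le n1 n2
        calc _ ≤ (((∏ p ∈ E, p : ℕ) : ℝ) * ((∏ p ∈ S, p : ℕ) : ℝ)) ^ (1 : ℝ) :=
              Real.rpow_le_rpow_of_exponent_le h4 hκ1
          _ = ((∏ p ∈ S, p : ℕ) : ℝ) * ((∏ p ∈ E, p : ℕ) : ℝ) := by rw [Real.rpow_one, mul_comm]
          _ ≤ _ := mul_le_mul_of_nonneg_right h2 (by linarith)
      have h5 : 0 ≤ ((∏ p ∈ Q, p : ℕ) : ℝ) ^ κ := Real.rpow_nonneg hQ0 _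
      calc C * ((((∏ p ∈ E, p : ℕ) : ℝ) * ((∏ p ∈ S, p : ℕ) : ℝ)) ^ κ * ((∏ p ∈ Q, p : ℕ) : ℝ) ^ κ) =
          C * ((∏ p ∈ Q, p : ℕ) : ℝ) ^ κ * (((∏ p ∈ E, p : ℕ) : ℝ) * ((∏ p ∈ S, p : ℕ) : ℝ)) ^ κ := by ring
        _ ≤ _ := mul_le_mul_of_nonneg_left h3 (mul_nonneg hC h5)
  refine (Finset.sum_le_sum key).trans ?_
  rw [← Finset.sum_mul]
  have h6 : 0 ≤ C * ((∏ p ∈ Q, p : ℕ) : ℝ) ^ κ * (M * ∑ E ∈ S0.powerset, ((∏ p ∈ E, p : ℕ) : ℝ)) := by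
    have : 0 ≤ ∑ E ∈ S0.powerset, ((∏ p ∈ E, p : ℕ) : ℝ) := Finset.sum_nonneg fun E _ => Nat.cast_nonneg _
    have := Real.rpow_nonneg hQ0 κ
    positivity
  refine (mul_le_mul_of_nonneg_right hmass h6).trans (le_of_eq ?_)
  ring

end Pool.Agent.H5.WD
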