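import Mathlib
import Pool.Agent.H5.WD.Sieve

/-!
[H5 WD Main]  The fundamental lemma for the sequence `k 2^k - 1`, final form.
-/

set_option autoImplicit false

namespace Pool.Agent.H5.WD

open Finset Pool.Agent.H75.AP Pool.Agent.H75.AP.MertB

/-- `∏_{2 < p ≤ z} (1 - 1/p)` -/
noncomputable def VV (z : ℝ) : ℝ := ∏ p ∈ PI 2 z, (1 - 1 / (p : ℝ))

theorem fac_nonneg {p : ℕ} (hp : p.Prime) : (0 : ℝ) ≤ 1 - 1 / (p : ℝ) := by
  have h2 : (1 : ℝ) < p := by exact_mod_cast hp.one_lt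
  have : 1 / (p : ℝ) ≤ 1 := by
    rw [div_le_one (by linarith)]
    exact h2.le
  linarith

theorem fac_le (p : ℕ) : (1 - 1 / (p : ℝ)) ≤ 1 := by
  have : (0 : ℝ) ≤ 1 / (p : ℝ) := by positivity
  linarith

theorem VV_nonneg (z : ℝ) : 0 ≤ VV z :=
  Finset.prod_nonneg fun _ hp => fac_nonneg ((mem_PI (by norm_num)).1 hp).1

theorem VV_le_one (z : ℝ) : VV z ≤ 1 :=
  Finset.prod_le_one (fun _ hp => fac_nonneg ((mem_PI (by norm_num)).1 hp).1) fun p _ => fac_le p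

/-- lower bound for the product, from Mertens -/
theorem VV_lower : ∃ c : ℝ, 0 < c ∧ ∀ z : ℝ, 2 ≤ z → c / Real.log z ≤ VV z := by
  obtain ⟨c, hc, h⟩ := Pool.Agent.H61.UN.prod_lb 1
  refine ⟨min c (Real.log 2), lt_min hc (Real.log_pos (by norm_num)), fun z hz => ?_⟩
  have hlz : 0 < Real.log z := Real.log_pos (by linarith)
  rcases lt_or_ge z 3 with h3 | h3
  · have : PI 2 z = ∅ := by
      rw [Finset.eq_empty_iff_forall_notMem]
      intro p hp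
      obtain ⟨_, h4, h5⟩ := (mem_PI (by norm_num)).1 hp
      have h6 : (2 : ℕ) < p := by exact_mod_cast h4
      have h7 : (p : ℝ) < 3 := by linarith
      have h8 : p < 3 := by exact_mod_cast h7
      omega
    unfold VV
    rw [this, Finset.prod_empty, div_le_one hlz]
    exact (min_le_right _ _).trans (Real.log_le_log (by norm_num) hz)
  · have h4 := h z h3
    rw [pow_one] at h4
    have h5 : PI ((1 : ℕ) : ℝ) z = insert 2 (PI 2 z) := by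
      ext p
      rw [mem_insert, mem_PI (by norm_num), mem_PI (by norm_num)]
      constructor
      · rintro ⟨a1, a2, a3⟩
        by_cases hp2 : p = 2
        · left; exact hp2
        · right
          refine ⟨a1, ?_, a3⟩
          have := a1.two_le
          have : 2 < p := by omega
          exact_mod_cast this
      · rintro (rfl | ⟨a1, a2, a3⟩)
        · exact ⟨Nat.prime_two, by norm_num, by push_cast; linarith⟩
        · refine ⟨a1, ?_, a3⟩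
          exact_mod_cast a1.one_lt
    have h6 : 2 ∉ PI 2 z := by
      intro hp
      have := ((mem_PI (by norm_num)).1 hp).2.1
      norm_num at this
    rw [h5, Finset.prod_insert h6] at h4
    have h7 : min c (Real.log 2) / Real.log z ≤ c / Real.log z := by
      gcongr
      exact min_le_left _ _
    have h8 : (1 - ((1 : ℕ) : ℝ) / ((2 : ℕ) : ℝ)) * ∏ p ∈ PI 2 z, (1 - ((1 : ℕ) : ℝ) / (p : ℝ)) ≤ VV z := by
      have e : ∏ p ∈ PI 2 z, (1 - ((1 : ℕ) : ℝ) / (p : ℝ)) = VV z := by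
        unfold VV
        push_cast
        rfl
      rw [e]
      have := VV_nonneg z
      push_cast
      nlinarith
    linarith

/-- upper bound for the product, from Mertens -/
theorem VV_upper : ∃ C : ℝ, 0 < C ∧ ∀ z : ℝ, 2 ≤ z → VV z ≤ C / Real.log z := by
  obtain ⟨C, hC, h⟩ := Pool.Agent.H61.UN.prod_ub 1 2 (by norm_num)
  refine ⟨max C (Real.log 3), lt_max_of_lt_left hC, fun z hz => ?_⟩
  have hlz : 0 < Real.log z := Real.log_pos (by linarith)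
  rcases lt_or_ge z 3 with h3 | h3
  · refine (VV_le_one z).trans ?_
    rw [le_div_iff₀ hlz, one_mul]
    exact (Real.log_le_log (by linarith) h3.le).trans (le_max_right _ _)
  · have h4 := h z h3
    rw [pow_one] at h4
    have e : ∏ p ∈ PI ((2 : ℕ) : ℝ) z, (1 - ((1 : ℕ) : ℝ) / (p : ℝ)) = VV z := by
      unfold VV
      push_cast
      rfl
    rw [e] at h4
    refine h4.trans ?_
    gcongr
    exact le_max_left _ _

/-- `k 2^k - 1` has no prime factor `≤ z` -/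
def Free (z : ℝ) (k : ℕ) : Prop := ∀ p ∈ PI 2 z, ¬ (k * 2 ^ k ≡ 1 [MOD p])

/-- two sieve bounds for given coefficients -/
theorem sum_split (S0 P : Finset ℕ) (z : ℝ) (hu : PI 2 z = S0 ∪ P) (k : ℕ) (phi : Finset ℕ → ℝ) :
    ∃ D ⊆ P, (Free z k ↔ (∀ p ∈ S0, ¬ (k * 2 ^ k ≡ 1 [MOD p])) ∧ D = ∅) ∧
      ∑ S ∈ P.powerset, phi S * hi S k = ∑ S ∈ D.powerset, phi S := by
  refine ⟨P.filter fun p => k * 2 ^ k ≡ 1 [MOD p], Finset.filter_subset _ _, ?_, ?_⟩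
  · unfold Free
    rw [hu]
    constructor
    · intro h
      refine ⟨fun p hp => h p (mem_union_left _ hp), ?_⟩
      rw [Finset.filter_eq_empty_iff]
      exact fun p hp => h p (mem_union_right _ hp)
    · rintro ⟨h1, h2⟩ p hp
      rcases mem_union.1 hp with h | h
      · exact h1 p h
      · rw [Finset.filter_eq_empty_iff] at h2
        exact h2 h
  · have h1 : ∑ S ∈ P.powerset, phi S * hi S k = ∑ S ∈ P.powerset.filter (fun S => Hit S k), phi S := by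
      rw [Finset.sum_filter]
      refine Finset.sum_congr rfl fun S _ => ?_
      unfold hi
      split_ifs <;> simp
    rw [h1]
    refine Finset.sum_congr ?_ fun _ _ => rfl
    ext S
    rw [mem_filter, mem_powerset, mem_powerset]
    constructor
    · rintro ⟨h2, h3⟩ p hp
      rw [mem_filter]
      exact ⟨h2 hp, h3 p hp⟩
    · intro h2
      exact ⟨fun p hp => (mem_filter.1 (h2 hp)).1, fun p hp => (mem_filter.1 (h2 hp)).2⟩

open Classical in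
/-- the number of `k < Y` with `Free z k` that are hit by all primes of `Q`, as a sum -/
noncomputable def UU (Y : ℕ) (z : ℝ) (Q : Finset ℕ) : ℝ :=
  ∑ k ∈ range Y, (if Free z k then (1 : ℝ) else 0) * hi Q k

theorem fl_core {κ C : ℝ} (hκ0 : 0 ≤ κ) (hκ1 : κ ≤ 1) (hC : 0 ≤ C) (hL : Lev κ C) :
    ∃ C0 : ℝ, 0 < C0 ∧ ∀ (B : ℕ) (η a : ℝ), 10 ≤ B → 0 < a → a ≤ 1 → a * (6 * B + 12) ≤ η →
    ∃ x0 : ℝ, 3 ≤ x0 ∧ ∀ (Y : ℕ) (x : ℝ), x0 ≤ x → ∀ z : ℝ, 2 ≤ z → z ≤ x ^ a →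
      ∀ Q : Finset ℕ, (∀ p ∈ Q, p.Prime ∧ z < (p : ℝ)) →
      (1 - (1 / 2 : ℝ) ^ B) * (Y / ((∏ p ∈ Q, p : ℕ) : ℝ) * VV z) -
          C0 * ((∏ p ∈ Q, p : ℕ) : ℝ) ^ κ * (x ^ η * x ^ η) ≤ UU Y z Q ∧
      UU Y z Q ≤ (1 + (1 / 2 : ℝ) ^ B) * (Y / ((∏ p ∈ Q, p : ℕ) : ℝ) * VV z) +
          C0 * ((∏ p ∈ Q, p : ℕ) : ℝ) ^ κ * (x ^ η * x ^ η) := by
  obtain ⟨w0, hw0, hFL⟩ := Pool.Agent.H95.FL.FL 1 le_rfl
  set C1 : ℝ := ∑ E ∈ (PI 2 w0).powerset, ((∏ p ∈ E, p : ℕ) : ℝ) with hC1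
  have hC1pos : 0 < C1 := by
    have h1 : (1 : ℝ) ≤ C1 := by
      rw [hC1]
      have : (((∏ p ∈ (∅ : Finset ℕ), p : ℕ) : ℕ) : ℝ) ≤ ∑ E ∈ (PI 2 w0).powerset, ((∏ p ∈ E, p : ℕ) : ℝ) :=
        Finset.single_le_sum (f := fun E : Finset ℕ => ((∏ p ∈ E, p : ℕ) : ℝ))
          (fun E _ => Nat.cast_nonneg _) (Finset.empty_mem_powerset _)
      simpa using this
    linarith
  refine ⟨C * C1 + 1, by positivity, ?_⟩
  intro B η a hB ha0 ha1 haη
  have hB10 : 10 * 1 ≤ B := by omega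
  obtain ⟨x0, hx0, h⟩ := hFL B η a hB10 ha0 ha1 haη
  refine ⟨x0, hx0, ?_⟩
  intro Y x hx z hz2 hzx Q hQ
  set S0 := PI 2 (min w0 z) with hS0
  set P := PI w0 z with hP
  have hw0R : (200 : ℝ) ≤ w0 := by exact_mod_cast (by simpa using hw0 : 200 ≤ w0)
  have hw0' : (0 : ℝ) ≤ w0 := by linarith
  have hu : PI 2 z = S0 ∪ P := by
    ext p
    rw [mem_union, hS0, hP, mem_PI (by norm_num), mem_PI (by norm_num), mem_PI hw0', le_min_iff]
    constructor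
    · rintro ⟨h1, h2, h3⟩
      rcases le_or_gt (p : ℝ) w0 with h4 | h4
      · left; exact ⟨h1, h2, h4, h3⟩
      · right; exact ⟨h1, h4, h3⟩
    · rintro (⟨h1, h2, h4, h3⟩ | ⟨h1, h4, h3⟩)
      · exact ⟨h1, h2, h3⟩
      · exact ⟨h1, by linarith, h3⟩
  have hd : Disjoint S0 P := by
    rw [Finset.disjoint_left]
    intro p h1 h2
    have h3 := ((mem_PI (by norm_num)).1 h1).2.2
    have h4 := ((mem_PI hw0').1 h2).2.1
    have h5 := (le_min_iff.1 h3).1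
    linarith
  have hdQ : Disjoint (S0 ∪ P) Q := by
    rw [← hu, Finset.disjoint_left]
    intro p h1 h2
    have h3 := ((mem_PI (by norm_num)).1 h1).2.2
    have h4 := (hQ p h2).2
    linarith
  have h0 : ∀ p ∈ S0, p.Prime ∧ p ≠ 2 := by
    intro p hp
    obtain ⟨h1, h2, -⟩ := (mem_PI (by norm_num)).1 hp
    refine ⟨h1, ?_⟩
    rintro rfl
    norm_num at h2
  have hP' : ∀ p ∈ P, p.Prime ∧ p ≠ 2 := by
    intro p hp
    obtain ⟨h1, h2, -⟩ := (mem_PI hw0').1 hp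
    refine ⟨h1, ?_⟩
    rintro rfl
    push_cast at h2
    linarith
  have hQ' : ∀ p ∈ Q, p.Prime ∧ p ≠ 2 := by
    intro p hp
    refine ⟨(hQ p hp).1, ?_⟩
    rintro rfl
    have := (hQ 2 hp).2
    push_cast at this
    linarith
  have hPx : ∀ p ∈ P, p.Prime ∧ w0 < p ∧ (p : ℝ) ≤ x ^ a := by
    intro p hp
    obtain ⟨h1, h2, h3⟩ := (mem_PI hw0').1 hp
    exact ⟨h1, by exact_mod_cast h2, h3.trans hzx⟩
  obtain ⟨phim, phip, hsm, hsp, ham, hap, hmm, hmp, hpt, hg⟩ := h x hx P hPx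
  obtain ⟨g1, g2, g3, g4⟩ := hg (fun p => 1 / (p : ℝ)) (by
    intro p hp
    refine ⟨by positivity, ?_⟩
    push_cast
    gcongr
    norm_num)
  have hx0' : 0 < x := by linarith
  have hM : 0 ≤ x ^ η := by positivity
  have hVsplit : VV z = (∏ p ∈ S0, (1 - 1 / (p : ℝ))) * ∏ p ∈ P, (1 - 1 / (p : ℝ)) := by
    unfold VV
    rw [hu, Finset.prod_union hd]
  have hV0 : 0 ≤ ∏ p ∈ S0, (1 - 1 / (p : ℝ)) := Finset.prod_nonneg fun p hp => fac_nonneg (h0 p hp).1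
  have hq1 := one_le_prod hQ'
  set q : ℝ := ((∏ p ∈ Q, p : ℕ) : ℝ) with hq
  have hqκ : 0 ≤ q ^ κ := Real.rpow_nonneg (by linarith) _
  have hCC : ∑ E ∈ S0.powerset, ((∏ p ∈ E, p : ℕ) : ℝ) ≤ C1 := by
    refine Finset.sum_le_sum_of_subset_of_nonneg ?_ fun E _ _ => Nat.cast_nonneg _
    rw [Finset.powerset_mono]
    intro p hp
    obtain ⟨h1, h2, h3⟩ := (mem_PI (by norm_num)).1 hp
    exact (mem_PI (by norm_num)).2 ⟨h1, h2, (le_min_iff.1 h3).1⟩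
  have hYR : (0 : ℝ) ≤ Y / q := div_nonneg (Nat.cast_nonneg _) (by linarith)
  have h8 : C * q ^ κ * (x ^ η * x ^ η * ∑ E ∈ S0.powerset, ((∏ p ∈ E, p : ℕ) : ℝ)) ≤
      (C * C1 + 1) * q ^ κ * (x ^ η * x ^ η) := by
    have h9 : x ^ η * x ^ η * ∑ E ∈ S0.powerset, ((∏ p ∈ E, p : ℕ) : ℝ) ≤ x ^ η * x ^ η * C1 :=
      mul_le_mul_of_nonneg_left hCC (mul_nonneg hM hM)
    have h10 := mul_le_mul_of_nonneg_left h9 (mul_nonneg hC hqκ)
    have h11 : 0 ≤ q ^ κ * (x ^ η * x ^ η) := mul_nonneg hqκ (mul_nonneg hM hM)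
    calc _ ≤ C * q ^ κ * (x ^ η * x ^ η * C1) := h10
      _ ≤ C * q ^ κ * (x ^ η * x ^ η * C1) + q ^ κ * (x ^ η * x ^ η) := by linarith
      _ = _ := by ring
  constructor
  · have hmain := main_sum hκ0 hκ1 hC hL S0 P Q hd hdQ h0 hP' hQ' Y phim (x ^ η)
      (fun S hS => (hsm S hS).2) (by simpa using hmm) hM
    rw [← hq] at hmain
    have hle : ∑ k ∈ range Y, (if ∀ p ∈ S0, ¬ (k * 2 ^ k ≡ 1 [MOD p]) then (1 : ℝ) else 0) *
        (∑ S ∈ P.powerset, phim S * hi S k) * hi Q k ≤ UU Y z Q := by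
      unfold UU
      refine Finset.sum_le_sum fun k _ => mul_le_mul_of_nonneg_right ?_ (hi_nonneg _ _)
      obtain ⟨D, hD, hD1, hD2⟩ := sum_split S0 P z hu k phim
      rw [hD2]
      have h1 := (hpt D hD).1
      by_cases hw : ∀ p ∈ S0, ¬ (k * 2 ^ k ≡ 1 [MOD p])
      · rw [if_pos hw, one_mul]
        refine h1.trans ?_
        by_cases hDe : D = ∅
        · rw [if_pos hDe, if_pos (hD1.2 ⟨hw, hDe⟩)]
        · rw [if_neg hDe, if_neg (fun h2 => hDe (hD1.1 h2).2)]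
      · rw [if_neg hw, zero_mul]
        split_ifs <;> norm_num
    have h5 := (abs_le.1 hmain).1
    have h6 : (1 - (1 / 2 : ℝ) ^ B) * (Y / q * VV z) ≤ Y / q * (∏ p ∈ S0, (1 - 1 / (p : ℝ))) *
        ∑ S ∈ P.powerset, phim S * ∏ p ∈ S, (1 / (p : ℝ)) := by
      calc _ = Y / q * (∏ p ∈ S0, (1 - 1 / (p : ℝ))) *
            ((1 - (1 / 2 : ℝ) ^ B) * ∏ p ∈ P, (1 - 1 / (p : ℝ))) := by rw [hVsplit]; ring
        _ ≤ _ := mul_le_mul_of_nonneg_left g1 (mul_nonneg hYR hV0)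
    linarith
  · have hmain := main_sum hκ0 hκ1 hC hL S0 P Q hd hdQ h0 hP' hQ' Y phip (x ^ η)
      (fun S hS => (hsp S hS).2) (by simpa using hmp) hM
    rw [← hq] at hmain
    have hle : UU Y z Q ≤ ∑ k ∈ range Y, (if ∀ p ∈ S0, ¬ (k * 2 ^ k ≡ 1 [MOD p]) then (1 : ℝ) else 0) *
        (∑ S ∈ P.powerset, phip S * hi S k) * hi Q k := by
      unfold UU
      refine Finset.sum_le_sum fun k _ => mul_le_mul_of_nonneg_right ?_ (hi_nonneg _ _)
      obtain ⟨D, hD, hD1, hD2⟩ := sum_split S0 P z hu k phip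
      rw [hD2]
      have h1 := (hpt D hD).2.1
      by_cases hw : ∀ p ∈ S0, ¬ (k * 2 ^ k ≡ 1 [MOD p])
      · rw [if_pos hw, one_mul]
        refine le_trans ?_ h1
        by_cases hDe : D = ∅
        · rw [if_pos hDe, if_pos (hD1.2 ⟨hw, hDe⟩)]
        · rw [if_neg hDe, if_neg (fun h2 => hDe (hD1.1 h2).2)]
      · rw [if_neg hw, zero_mul, if_neg (fun h2 => hw (hD1.1 h2).1)]
    have h5 := (abs_le.1 hmain).2
    have h6 : Y / q * (∏ p ∈ S0, (1 - 1 / (p : ℝ))) *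
        ∑ S ∈ P.powerset, phip S * ∏ p ∈ S, (1 / (p : ℝ)) ≤ (1 + (1 / 2 : ℝ) ^ B) * (Y / q * VV z) := by
      calc _ ≤ Y / q * (∏ p ∈ S0, (1 - 1 / (p : ℝ))) *
            ((1 + (1 / 2 : ℝ) ^ B) * ∏ p ∈ P, (1 - 1 / (p : ℝ))) :=
              mul_le_mul_of_nonneg_left g4 (mul_nonneg hYR hV0)
        _ = _ := by rw [hVsplit]; ring
    linarith

open Classical in
/-- the same over `1 ≤ k ≤ X` -/
noncomputable def WW (X : ℕ) (z : ℝ) (Q : Finset ℕ) : ℝ :=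
  ∑ k ∈ Icc 1 X, (if Free z k then (1 : ℝ) else 0) * hi Q k

open Classical in
theorem ww_uu (X : ℕ) (z : ℝ) (Q : Finset ℕ) : WW X z Q ≤ UU (X + 1) z Q ∧ UU (X + 1) z Q ≤ WW X z Q + 1 := by
  have h1 : range (X + 1) = insert 0 (Icc 1 X) := by
    ext k
    rw [mem_range, mem_insert, mem_Icc]
    omega
  have h2 : (0 : ℕ) ∉ Icc 1 X := by simp
  unfold WW UU
  rw [h1, Finset.sum_insert h2]
  have h3 : 0 ≤ (if Free z 0 then (1 : ℝ) else 0) * hi Q 0 := by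
    have := hi_nonneg Q 0
    split_ifs <;> simp [this]
  have h4 : (if Free z 0 then (1 : ℝ) else 0) * hi Q 0 ≤ 1 := by
    have := hi_le_one Q 0
    split_ifs <;> simp [this]
  constructor <;> linarith

theorem fl_main {κ C : ℝ} (hκ0 : 0 ≤ κ) (hκ1 : κ ≤ 1) (hC : 0 ≤ C) (hL : Lev κ C) :
    ∃ C0 : ℝ, 0 < C0 ∧ ∀ (B : ℕ) (η a : ℝ), 10 ≤ B → 0 < a → a ≤ 1 → a * (6 * B + 12) ≤ η →
    ∃ x0 : ℝ, 3 ≤ x0 ∧ ∀ (X : ℕ) (x : ℝ), x0 ≤ x → ∀ z : ℝ, 2 ≤ z → z ≤ x ^ a →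
      ∀ Q : Finset ℕ, (∀ p ∈ Q, p.Prime ∧ z < (p : ℝ)) →
      |WW X z Q - X / ((∏ p ∈ Q, p : ℕ) : ℝ) * VV z| ≤
        (1 / 2 : ℝ) ^ B * (X / ((∏ p ∈ Q, p : ℕ) : ℝ) * VV z) +
          C0 * (((∏ p ∈ Q, p : ℕ) : ℝ) ^ κ * (x ^ η * x ^ η)) := by
  obtain ⟨C0, hC0, h⟩ := fl_core hκ0 hκ1 hC hL
  refine ⟨C0 + 2, by positivity, ?_⟩
  intro B η a hB ha0 ha1 haη
  obtain ⟨x0, hx0, h⟩ := h B η a hB ha0 ha1 haη
  refine ⟨x0, hx0, ?_⟩
  intro X x hx z hz2 hzx Q hQ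
  obtain ⟨h1, h2⟩ := h (X + 1) x hx z hz2 hzx Q hQ
  obtain ⟨h3, h4⟩ := ww_uu X z Q
  have hQ' : ∀ p ∈ Q, p.Prime ∧ p ≠ 2 := by
    intro p hp
    refine ⟨(hQ p hp).1, ?_⟩
    rintro rfl
    have := (hQ 2 hp).2
    push_cast at this
    linarith
  have hq1 := one_le_prod hQ'
  set q : ℝ := ((∏ p ∈ Q, p : ℕ) : ℝ) with hq
  have hx1 : 1 ≤ x := by linarith
  have hη : 0 ≤ η := le_trans (by positivity) haη
  have e1 : 1 ≤ q ^ κ := Real.one_le_rpow hq1 hκ0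
  have e2 : 1 ≤ x ^ η := Real.one_le_rpow hx1 hη
  have e3 : 1 ≤ q ^ κ * (x ^ η * x ^ η) := by
    have := one_le_mul_of_one_le_of_one_le e2 e2
    exact one_le_mul_of_one_le_of_one_le e1 this
  have hV0 := VV_nonneg z
  have hV1 := VV_le_one z
  have e4 : 1 / q * VV z ≤ 1 := by
    have : 1 / q ≤ 1 := by rw [div_le_one (by linarith)]; exact hq1
    exact mul_le_one₀ this hV0 hV1
  have e4' : 0 ≤ 1 / q * VV z := by positivity
  have e5 : ((X + 1 : ℕ) : ℝ) / q * VV z = X / q * VV z + 1 / q * VV z := by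
    push_cast
    ring
  have e6 : (1 / 2 : ℝ) ^ B ≤ 1 := pow_le_one₀ (by norm_num) (by norm_num)
  have e7 : 0 ≤ (1 / 2 : ℝ) ^ B := by positivity
  rw [e5] at h1 h2
  have e8 : (1 / 2 : ℝ) ^ B * (1 / q * VV z) ≤ 1 := mul_le_one₀ e6 e4' e4
  have e9 : 0 ≤ (1 / 2 : ℝ) ^ B * (1 / q * VV z) := mul_nonneg e7 e4'
  rw [abs_le]
  constructor
  · nlinarith
  · nlinarith

end Pool.Agent.H5.WD
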