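import Mathlib
import Pool.Agent.H5.WD.Main
import Pool.Agent.H5.WD.Lin
import Pool.Agent.H11.PT.Mai
import Pool.Agent.H11.RG.Cst

/-!
[H5 WD Pat]  Sums of the pattern weights over the sequence `k 2^k - 1`.
-/

set_option autoImplicit false

namespace Pool.Agent.H5.WD

open Finset Filter Topology Pool.Agent.H89.P2 Pool.Agent.H11.PT

/-- sum of the reciprocals of the products of the tuples of pattern `P` -/
noncomputable def mt (x δ : ℝ) (P : List ℕ) : ℝ := ∑ t ∈ tp x δ P, 1 / ((∏ i, t i : ℕ) : ℝ)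

theorem mt_nonneg (x δ : ℝ) (P : List ℕ) : 0 ≤ mt x δ P :=
  Finset.sum_nonneg fun _ _ => by positivity

theorem tp_spec {x δ : ℝ} {P : List ℕ} {t : Fin P.length → ℕ} (ht : t ∈ tp x δ P) :
    (∀ i, t i ∈ cell x δ (P.get i)) ∧ Function.Injective t := by
  classical
  unfold tp at ht
  rw [Finset.mem_filter, Fintype.mem_piFinset] at ht
  exact ht

theorem prod_image_tp {x δ : ℝ} {P : List ℕ} {t : Fin P.length → ℕ} (ht : t ∈ tp x δ P) :
    ∏ p ∈ univ.image t, p = ∏ i, t i := by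
  rw [Finset.prod_image]
  intro i _ j _ h
  exact (tp_spec ht).2 h

theorem dvd_iff_hit {k p : ℕ} (hk : 1 ≤ k) : p ∣ k * 2 ^ k - 1 ↔ k * 2 ^ k ≡ 1 [MOD p] := by
  have h1 : 1 ≤ k * 2 ^ k := Nat.mul_pos hk (by positivity)
  rw [← Nat.modEq_iff_dvd' h1]
  exact ⟨fun h => h.symm, fun h => h.symm⟩

/-- the monomial as a sum over tuples -/
theorem mono_hi (x δ : ℝ) (hx : 1 < x) (hδ : 0 < δ) (P : List ℕ) (k : ℕ) (hk : 1 ≤ k) :
    mono P (kk x δ (k * 2 ^ k - 1)) = ∑ t ∈ tp x δ P, hi (univ.image t) k := by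
  classical
  rw [mono_card x δ hx hδ P (k * 2 ^ k - 1), Finset.card_filter]
  push_cast
  refine Finset.sum_congr rfl fun t _ => ?_
  unfold hi
  have h1 : (∀ i, t i ∣ k * 2 ^ k - 1) ↔ Hit (univ.image t) k := by
    unfold Hit
    rw [Finset.forall_mem_image]
    constructor
    · intro h i _
      exact (dvd_iff_hit hk).1 (h i)
    · intro h i
      exact (dvd_iff_hit hk).2 (h (mem_univ i))
  by_cases h : Hit (univ.image t) k
  · rw [if_pos h, if_pos (h1.2 h)]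
  · rw [if_neg h, if_neg (fun h2 => h (h1.1 h2))]

open Classical in
theorem sum_mono (x δ : ℝ) (hx : 1 < x) (hδ : 0 < δ) (P : List ℕ) (X : ℕ) (z : ℝ) :
    ∑ k ∈ Icc 1 X, (if Free z k then (1 : ℝ) else 0) * mono P (kk x δ (k * 2 ^ k - 1)) =
      ∑ t ∈ tp x δ P, WW X z (univ.image t) := by
  unfold WW
  rw [Finset.sum_comm]
  refine Finset.sum_congr rfl fun k hk => ?_
  rw [mono_hi x δ hx hδ P k (Finset.mem_Icc.1 hk).1, Finset.mul_sum]

/-- number of tuples -/
theorem card_tp (x δ : ℝ) (hx : 1 < x) (hδ : 0 < δ) (P : List ℕ) :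
    ((tp x δ P).card : ℝ) ≤ (P.length.factorial : ℝ) * x ^ ((size P : ℝ) * δ) := by
  have h1 := co_sum x δ hx hδ P _ le_rfl (fun _ => (1 : ℝ))
  rw [Finset.sum_const, nsmul_eq_mul, mul_one] at h1
  rw [← h1]
  have h2 : ∑ a ∈ Icc 1 ⌊x ^ ((size P : ℝ) * δ)⌋₊, co x δ P a * 1 ≤
      ∑ a ∈ Icc 1 ⌊x ^ ((size P : ℝ) * δ)⌋₊, (P.length.factorial : ℝ) := by
    refine Finset.sum_le_sum fun a _ => ?_
    rw [mul_one]
    exact co_le x δ P a
  refine h2.trans ?_
  rw [Finset.sum_const, nsmul_eq_mul, Nat.card_Icc, Nat.add_sub_cancel, mul_comm]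
  exact mul_le_mul_of_nonneg_left (Nat.floor_le (by positivity)) (Nat.cast_nonneg _)

/-- one pattern -/
theorem pat_one {κ C0 x δ a η : ℝ} (hκ0 : 0 ≤ κ) (hC0 : 0 ≤ C0) (hx : 1 < x) (hδ : 0 < δ) (P : List ℕ)
    (hP : ∀ j ∈ P, a ≤ (j : ℝ) * δ) (X B : ℕ) (z : ℝ) (hz : z < x ^ a)
    (h : ∀ Q : Finset ℕ, (∀ p ∈ Q, p.Prime ∧ z < (p : ℝ)) →
      |WW X z Q - X / ((∏ p ∈ Q, p : ℕ) : ℝ) * VV z| ≤
        (1 / 2 : ℝ) ^ B * (X / ((∏ p ∈ Q, p : ℕ) : ℝ) * VV z) +
          C0 * (((∏ p ∈ Q, p : ℕ) : ℝ) ^ κ * (x ^ η * x ^ η))) :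
    |∑ t ∈ tp x δ P, WW X z (univ.image t) - X * VV z * mt x δ P| ≤
      (1 / 2 : ℝ) ^ B * (X * VV z * mt x δ P) +
        C0 * (P.length.factorial : ℝ) * (x ^ ((size P : ℝ) * δ) * x ^ ((size P : ℝ) * δ * κ) * (x ^ η * x ^ η)) := by
  have hx0 : 0 < x := by linarith
  have h1 : X * VV z * mt x δ P = ∑ t ∈ tp x δ P, X / ((∏ i, t i : ℕ) : ℝ) * VV z := by
    unfold mt
    rw [Finset.mul_sum]
    refine Finset.sum_congr rfl fun t _ => by ring
  have h2 : ∀ t ∈ tp x δ P, |WW X z (univ.image t) - X / ((∏ i, t i : ℕ) : ℝ) * VV z| ≤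
      (1 / 2 : ℝ) ^ B * (X / ((∏ i, t i : ℕ) : ℝ) * VV z) +
        C0 * (x ^ ((size P : ℝ) * δ * κ) * (x ^ η * x ^ η)) := by
    intro t ht
    have h3 := h (univ.image t) (by
      intro p hp
      obtain ⟨i, -, rfl⟩ := Finset.mem_image.1 hp
      have h4 := (tp_spec ht).1 i
      refine ⟨cell_prime h4, hz.trans_le ?_⟩
      refine le_trans ?_ (cell_lo h4)
      exact Real.rpow_le_rpow_of_exponent_le hx.le (hP _ (List.get_mem P i)))
    rw [prod_image_tp ht] at h3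
    refine h3.trans ?_
    have h5 : ((∏ i, t i : ℕ) : ℝ) ^ κ ≤ x ^ ((size P : ℝ) * δ * κ) := by
      rw [Real.rpow_mul hx0.le]
      exact Real.rpow_le_rpow (Nat.cast_nonneg _) (prod_le x δ hx hδ P t ht) hκ0
    have h6 : 0 ≤ x ^ η * x ^ η := by positivity
    have h7 := mul_le_mul_of_nonneg_left (mul_le_mul_of_nonneg_right h5 h6) hC0
    linarith
  rw [h1, ← Finset.sum_sub_distrib]
  refine (Finset.abs_sum_le_sum_abs _ _).trans ((Finset.sum_le_sum h2).trans ?_)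
  rw [Finset.sum_add_distrib, ← Finset.mul_sum, Finset.sum_const, nsmul_eq_mul]
  have h8 := card_tp x δ hx hδ P
  have h9 : 0 ≤ C0 * (x ^ ((size P : ℝ) * δ * κ) * (x ^ η * x ^ η)) := by positivity
  have h10 := mul_le_mul_of_nonneg_right h8 h9
  have h11 : (P.length.factorial : ℝ) * x ^ ((size P : ℝ) * δ) *
      (C0 * (x ^ ((size P : ℝ) * δ * κ) * (x ^ η * x ^ η))) =
      C0 * (P.length.factorial : ℝ) * (x ^ ((size P : ℝ) * δ) * x ^ ((size P : ℝ) * δ * κ) * (x ^ η * x ^ η)) := by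
    ring
  rw [h11] at h10
  linarith

/-- means of a weight with the true tuple sums -/
noncomputable def mvt (W : List (ℝ × List ℕ)) (x δ : ℝ) : ℝ := (W.map fun w => w.1 * mt x δ w.2).sum

/-- absolute means of a weight with the true tuple sums -/
noncomputable def mvat (W : List (ℝ × List ℕ)) (x δ : ℝ) : ℝ := (W.map fun w => |w.1| * mt x δ w.2).sum

/-- the constant in the error term -/
noncomputable def cw (W : List (ℝ × List ℕ)) : ℝ := (W.map fun w => |w.1| * (w.2.length.factorial : ℝ)).sum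

open Classical in
/-- all patterns -/
theorem pat_all {κ C0 x δ a η D : ℝ} (hκ0 : 0 ≤ κ) (hC0 : 0 ≤ C0) (hx : 1 < x) (hδ : 0 < δ)
    (X B : ℕ) (z : ℝ) (hz : z < x ^ a)
    (h : ∀ Q : Finset ℕ, (∀ p ∈ Q, p.Prime ∧ z < (p : ℝ)) →
      |WW X z Q - X / ((∏ p ∈ Q, p : ℕ) : ℝ) * VV z| ≤
        (1 / 2 : ℝ) ^ B * (X / ((∏ p ∈ Q, p : ℕ) : ℝ) * VV z) +
          C0 * (((∏ p ∈ Q, p : ℕ) : ℝ) ^ κ * (x ^ η * x ^ η)))
    (W : List (ℝ × List ℕ)) (hW : ∀ w ∈ W, (∀ j ∈ w.2, a ≤ (j : ℝ) * δ) ∧ (size w.2 : ℝ) * δ ≤ D) :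
    |∑ k ∈ Icc 1 X, (if Free z k then (1 : ℝ) else 0) * ev W (kk x δ (k * 2 ^ k - 1)) -
      X * VV z * mvt W x δ| ≤ (1 / 2 : ℝ) ^ B * (X * VV z * mvat W x δ) +
        C0 * cw W * x ^ (D * (1 + κ) + 2 * η) := by
  induction W with
  | nil => simp [ev, mvt, mvat, cw]
  | cons w W ih =>
    have hx0 : 0 < x := by linarith
    obtain ⟨h1, h2⟩ := hW w List.mem_cons_self
    have ih := ih fun v hv => hW v (List.mem_cons_of_mem _ hv)
    have e1 : ∀ k, ev (w :: W) k = w.1 * mono w.2 k + ev W k := by intro k; simp [ev]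
    have e2 : mvt (w :: W) x δ = w.1 * mt x δ w.2 + mvt W x δ := by simp [mvt]
    have e3 : mvat (w :: W) x δ = |w.1| * mt x δ w.2 + mvat W x δ := by simp [mvat]
    have e4 : cw (w :: W) = |w.1| * (w.2.length.factorial : ℝ) + cw W := by simp [cw]
    have e5 : ∑ k ∈ Icc 1 X, (if Free z k then (1 : ℝ) else 0) * ev (w :: W) (kk x δ (k * 2 ^ k - 1)) =
        w.1 * ∑ t ∈ tp x δ w.2, WW X z (univ.image t) +
        ∑ k ∈ Icc 1 X, (if Free z k then (1 : ℝ) else 0) * ev W (kk x δ (k * 2 ^ k - 1)) := by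
      rw [← sum_mono x δ hx hδ w.2 X z, Finset.mul_sum, ← Finset.sum_add_distrib]
      refine Finset.sum_congr rfl fun k _ => ?_
      rw [e1]
      ring
    have h3 := pat_one hκ0 hC0 hx hδ w.2 h1 X B z hz h
    have h4 : x ^ ((size w.2 : ℝ) * δ) * x ^ ((size w.2 : ℝ) * δ * κ) * (x ^ η * x ^ η) ≤
        x ^ (D * (1 + κ) + 2 * η) := by
      rw [← Real.rpow_add hx0, ← Real.rpow_add hx0, ← Real.rpow_add hx0]
      apply Real.rpow_le_rpow_of_exponent_le hx.le
      have : (size w.2 : ℝ) * δ * (1 + κ) ≤ D * (1 + κ) := mul_le_mul_of_nonneg_right h2 (by linarith)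
      linarith
    have h5 : C0 * (w.2.length.factorial : ℝ) *
        (x ^ ((size w.2 : ℝ) * δ) * x ^ ((size w.2 : ℝ) * δ * κ) * (x ^ η * x ^ η)) ≤
        C0 * (w.2.length.factorial : ℝ) * x ^ (D * (1 + κ) + 2 * η) :=
      mul_le_mul_of_nonneg_left h4 (by positivity)
    have h6 := h3.trans (add_le_add le_rfl h5)
    have h7 := mul_le_mul_of_nonneg_left h6 (abs_nonneg w.1)
    rw [← abs_mul] at h7
    rw [e5, e2, e3, e4]
    have h8 : w.1 * ∑ t ∈ tp x δ w.2, WW X z (univ.image t) +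
        ∑ k ∈ Icc 1 X, (if Free z k then (1 : ℝ) else 0) * ev W (kk x δ (k * 2 ^ k - 1)) -
        X * VV z * (w.1 * mt x δ w.2 + mvt W x δ) =
        w.1 * (∑ t ∈ tp x δ w.2, WW X z (univ.image t) - X * VV z * mt x δ w.2) +
        (∑ k ∈ Icc 1 X, (if Free z k then (1 : ℝ) else 0) * ev W (kk x δ (k * 2 ^ k - 1)) -
          X * VV z * mvt W x δ) := by ring
    rw [h8]
    refine (abs_add_le _ _).trans ((add_le_add h7 ih).trans (le_of_eq ?_))
    ring

/-- the tuple sums converge -/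
theorem mt_tendsto (a δ : ℝ) (hδ : 0 < δ) (ha : 0 < a) (P : List ℕ) (hP : ∀ j ∈ P, a ≤ (j : ℝ) * δ) :
    Tendsto (fun x => mt x δ P) atTop (𝓝 ((P.map mu).prod)) := by
  have hpos : ∀ j ∈ P, 0 < j := by
    intro j hj
    have h1 := hP j hj
    rcases Nat.eq_zero_or_pos j with h | h
    · rw [h] at h1
      simp at h1
      linarith
    · exact h
  have hms : Tendsto (fun x => (P.map (ms x δ)).prod) atTop (𝓝 ((P.map mu).prod)) := by
    clear hP
    induction P with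
    | nil => simp
    | cons j P ih =>
      simp only [List.map_cons, List.prod_cons]
      exact (Pool.Agent.H11.RG.ms_tendsto δ hδ j (hpos j List.mem_cons_self)).mul
        (ih fun i hi => hpos i (List.mem_cons_of_mem _ hi))
  obtain ⟨C, x0, hC, h⟩ := main_term δ a hδ ha P [] [] [] hP (by simp) (by simp) (by simp)
  have hnil : ∀ x : ℝ, co x δ [] 1 = 1 := by
    intro x
    classical
    unfold co
    have : (tp x δ []).filter (fun t => ∏ i, t i = 1) = {fun i => i.elim0} := by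
      ext t
      rw [mem_filter, mem_singleton]
      constructor
      · intro _
        funext i
        exact i.elim0
      · rintro rfl
        refine ⟨?_, by simp⟩
        unfold tp
        rw [mem_filter, Fintype.mem_piFinset]
        exact ⟨fun i => i.elim0, fun i => i.elim0⟩
    rw [this]
    simp
  have hdiff : Tendsto (fun x => mt x δ P - (P.map (ms x δ)).prod) atTop (𝓝 0) := by
    have hlim : Tendsto (fun x : ℝ => C * x ^ (-a)) atTop (𝓝 0) := by
      have := (tendsto_rpow_neg_atTop ha).const_mul C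
      simpa using this
    refine squeeze_zero_norm' ?_ hlim
    filter_upwards [eventually_ge_atTop x0, eventually_gt_atTop (1 : ℝ)] with x hx hx1
    have hfl : ⌊x ^ ((size ([] : List ℕ) : ℝ) * δ)⌋₊ ≤ 1 := by
      have : (size ([] : List ℕ) : ℝ) = 0 := by simp [size]
      rw [this, zero_mul, Real.rpow_zero, Nat.floor_one]
    have h1 := h x hx ⌊x ^ ((size P : ℝ) * δ)⌋₊ 1 1 1 (fun _ _ _ _ => True) (fun _ _ _ _ _ _ _ _ => trivial)
      le_rfl hfl hfl hfl
    rw [Real.norm_eq_abs]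
    have h2 : mt x δ P = ∑ a ∈ Icc 1 ⌊x ^ ((size P : ℝ) * δ)⌋₊, co x δ P a * (1 / (a : ℝ)) := by
      rw [co_sum x δ hx1 hδ P _ le_rfl]
      rfl
    simp only [if_true, Finset.Icc_self, Finset.sum_singleton, hnil, mul_one, Nat.cast_one, List.map_nil,
      List.prod_nil] at h1
    rw [h2]
    exact h1
  have := hdiff.add hms
  simpa using this

theorem mvt_tendsto (a δ : ℝ) (hδ : 0 < δ) (ha : 0 < a) (W : List (ℝ × List ℕ))
    (hW : ∀ w ∈ W, ∀ j ∈ w.2, a ≤ (j : ℝ) * δ) :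
    Tendsto (fun x => mvt W x δ) atTop (𝓝 (mv W mu)) ∧
    Tendsto (fun x => mvat W x δ) atTop (𝓝 (mva W mu)) := by
  induction W with
  | nil => simp [mvt, mvat, mv, mva]
  | cons w W ih =>
    obtain ⟨h1, h2⟩ := ih fun v hv => hW v (List.mem_cons_of_mem _ hv)
    have h3 := mt_tendsto a δ hδ ha w.2 (hW w List.mem_cons_self)
    constructor
    · have e1 : (fun x => mvt (w :: W) x δ) = fun x => w.1 * mt x δ w.2 + mvt W x δ := by
        funext x; simp [mvt]
      have e2 : mv (w :: W) mu = w.1 * (w.2.map mu).prod + mv W mu := by simp [mv]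
      rw [e1, e2]
      exact (h3.const_mul _).add h1
    · have e1 : (fun x => mvat (w :: W) x δ) = fun x => |w.1| * mt x δ w.2 + mvat W x δ := by
        funext x; simp [mvat]
      have e2 : mva (w :: W) mu = |w.1| * (w.2.map mu).prod + mva W mu := by simp [mva]
      rw [e1, e2]
      exact (h3.const_mul _).add h2

end Pool.Agent.H5.WD
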