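import Mathlib
import Pool.Agent.H5.WD.Pat
import Pool.Agent.H89.P2.Tr

/-!
[H5 WD Fin]  The lower bound of the right order for `z = X^θ`, `2 θ (1 + κ) < 1`.
-/

set_option autoImplicit false

namespace Pool.Agent.H5.WD

open Finset Filter Topology Pool.Agent.H89.P2 Pool.Agent.H11.PT

/-- number of `1 ≤ k ≤ X` with `Free z k` -/
noncomputable def NN (X : ℕ) (z : ℝ) : ℝ := WW X z ∅

open Classical in
theorem NN_eq (X : ℕ) (z : ℝ) : NN X z = ∑ k ∈ Icc 1 X, (if Free z k then (1 : ℝ) else 0) := by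
  unfold NN WW
  refine Finset.sum_congr rfl fun k _ => ?_
  have : hi ∅ k = 1 := by
    unfold hi
    rw [if_pos]
    intro p hp
    simp at hp
  rw [this, mul_one]

/-- no prime in the boxes and none below `x^a` -/
theorem free_of_boxes {x a δ θ : ℝ} (hx : 1 < x) (J m : ℕ) (hJδ : (J : ℝ) * δ = a)
    (hJm : J ≤ m) (hθ : θ < (m : ℝ) * δ) (z : ℝ) (hz : z = ((⌈x ^ a⌉₊ - 1 : ℕ) : ℝ)) (k : ℕ) (hk : 1 ≤ k)
    (hfree : Free z k) (hbox : ∀ j, J ≤ j → j < m → kk x δ (k * 2 ^ k - 1) j = 0) : Free (x ^ θ) k := by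
  intro p hp hit
  obtain ⟨h1, h2, h3⟩ := (Pool.Agent.H75.AP.MertB.mem_PI (by norm_num)).1 hp
  have hz0 : p ∉ Pool.Agent.H75.AP.PI 2 z := fun h => hfree p h hit
  have hzp : z < (p : ℝ) := by
    by_contra hcon
    exact hz0 ((Pool.Agent.H75.AP.MertB.mem_PI (by norm_num)).2 ⟨h1, h2, not_lt.1 hcon⟩)
  have hpa : x ^ a ≤ (p : ℝ) := by
    rw [hz] at hzp
    have h4 : ⌈x ^ a⌉₊ - 1 < p := by exact_mod_cast hzp
    have h5 : ⌈x ^ a⌉₊ ≤ p := by omega
    exact Nat.ceil_le.1 h5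
  have key : ∀ j, J ≤ j → j ≤ m → x ^ ((j : ℝ) * δ) ≤ (p : ℝ) := by
    intro j hj
    induction j, hj using Nat.le_induction with
    | base => intro _; rw [hJδ]; exact hpa
    | succ j hj ih =>
      intro hjm
      have h4 := ih (by omega)
      have h5 := hbox j hj (by omega)
      by_contra hcon
      rw [not_le] at hcon
      have h6 : p ∈ (cell x δ j).filter (· ∣ k * 2 ^ k - 1) := by
        rw [mem_filter, mem_cell]
        refine ⟨⟨h1, h4, ?_⟩, (dvd_iff_hit hk).2 hit⟩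
        push_cast at hcon
        exact hcon
      unfold kk at h5
      rw [Finset.card_eq_zero] at h5
      rw [h5] at h6
      simp at h6
  have h7 := key m hJm le_rfl
  have h8 : x ^ θ < x ^ ((m : ℝ) * δ) := Real.rpow_lt_rpow_of_exponent_lt hx hθ
  linarith

theorem choose_B (θ η c : ℝ) (hθ : 0 < θ) (hη : 0 < η) (hc : 0 < c) : ∃ B : ℕ, 10 ≤ B ∧
    η / (6 * B + 12) < θ ∧ (1 / 2 : ℝ) ^ B * (8 * θ) ≤ c * (η / (6 * B + 12)) ^ 2 := by
  have h1 : Tendsto (fun n : ℕ => (n : ℝ) ^ 2 * (1 / 2 : ℝ) ^ n) atTop (𝓝 0) :=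
    tendsto_pow_const_mul_const_pow_of_abs_lt_one 2 (by rw [abs_of_pos] <;> norm_num)
  have h2 : ∀ᶠ n : ℕ in atTop, (n : ℝ) ^ 2 * (1 / 2 : ℝ) ^ n < c * η ^ 2 / (8 * θ * 324) :=
    h1.eventually_lt_const (by positivity)
  have h3 : ∀ᶠ n : ℕ in atTop, η / θ < (n : ℝ) := by
    obtain ⟨N, hN⟩ := exists_nat_gt (η / θ)
    filter_upwards [eventually_ge_atTop N] with n hn
    have : (N : ℝ) ≤ n := by exact_mod_cast hn
    linarith
  obtain ⟨B, h4, h5, h6⟩ := (h2.and (h3.and (eventually_ge_atTop 10))).exists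
  have hB10 : (10 : ℝ) ≤ B := by exact_mod_cast h6
  refine ⟨B, h6, ?_, ?_⟩
  · rw [div_lt_iff₀ (by positivity)]
    rw [div_lt_iff₀ hθ] at h5
    nlinarith
  · rw [div_pow η, mul_div_assoc', le_div_iff₀ (by positivity)]
    rw [lt_div_iff₀ (by positivity)] at h4
    have h7 : (6 * (B : ℝ) + 12) ^ 2 ≤ 324 * (B : ℝ) ^ 2 := by nlinarith
    have h8 : 0 ≤ (1 / 2 : ℝ) ^ B * (8 * θ) := by positivity
    have h9 := mul_le_mul_of_nonneg_left h7 h8
    linarith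

theorem lin_lower {κ C : ℝ} (hκ0 : 0 ≤ κ) (hκ1 : κ ≤ 1) (hC : 0 ≤ C) (hL : Lev κ C) (θ : ℝ) (hθ : 0 < θ)
    (hθκ : 2 * θ * (1 + κ) < 1) :
    ∃ c : ℝ, 0 < c ∧ ∃ X0 : ℕ, ∀ X : ℕ, X0 ≤ X → c * (X / Real.log X) ≤ NN X ((X : ℝ) ^ θ) := by
  have hκp : 0 < 1 + κ := by linarith
  obtain ⟨D, hD⟩ : ∃ D : ℝ, D = min (3 * θ) ((2 * θ + 1 / (1 + κ)) / 2) := ⟨_, rfl⟩
  have hθ' : 2 * θ < 1 / (1 + κ) := by rw [lt_div_iff₀ hκp]; exact hθκ
  have hD2 : 2 * θ < D := by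
    rw [hD]
    exact lt_min (by linarith) (by linarith)
  have hD3 : D ≤ 3 * θ := by rw [hD]; exact min_le_left _ _
  have hD4 : D * (1 + κ) < 1 := by
    have h1 : D ≤ (2 * θ + 1 / (1 + κ)) / 2 := by rw [hD]; exact min_le_right _ _
    have h2 : D < 1 / (1 + κ) := by linarith
    rwa [lt_div_iff₀ hκp] at h2
  obtain ⟨η, hη⟩ : ∃ η : ℝ, η = (1 - D * (1 + κ)) / 4 := ⟨_, rfl⟩
  have hη0 : 0 < η := by rw [hη]; linarith
  have hη1 : η ≤ 1 / 4 := by
    rw [hη]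
    have : 0 < D * (1 + κ) := by have : 0 < D := by linarith
                                 positivity
    linarith
  obtain ⟨c, hc, hlow⟩ := lower_exist θ D hθ hD2 hD3
  obtain ⟨C0, hC0, hfl⟩ := fl_main hκ0 hκ1 hC hL
  obtain ⟨B, hB10, hBθ, hBc⟩ := choose_B θ η c hθ hη0 hc
  obtain ⟨a, ha⟩ : ∃ a : ℝ, a = η / (6 * B + 12) := ⟨_, rfl⟩
  rw [← ha] at hBθ hBc
  have hB0 : (0 : ℝ) < 6 * B + 12 := by positivity
  have ha0 : 0 < a := by rw [ha]; positivity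
  have haη : a * (6 * B + 12) ≤ η := by rw [ha]; field_simp; exact le_refl _
  have ha1 : a ≤ 1 := by
    have : a * 12 ≤ a * (6 * B + 12) := mul_le_mul_of_nonneg_left (by
      have : (0 : ℝ) ≤ B := Nat.cast_nonneg _
      linarith) ha0.le
    linarith
  obtain ⟨J0, hJ0, hlow⟩ := hlow a ha0 hBθ
  obtain ⟨m, M, hJm, h2m, hmθ, hm2θ, hMD, hmv⟩ := hlow J0 le_rfl
  obtain ⟨δ, hδd⟩ : ∃ δ : ℝ, δ = a / J0 := ⟨_, rfl⟩
  rw [← hδd] at hmθ hm2θ hMD
  have hJR : (0 : ℝ) < J0 := by exact_mod_cast hJ0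
  have hδ : 0 < δ := by rw [hδd]; positivity
  have hJδ : (J0 : ℝ) * δ = a := by rw [hδd]; field_simp
  obtain ⟨W, hWd⟩ : ∃ W, W = sv J0 m false M := ⟨_, rfl⟩
  rw [← hWd] at hmv
  have hWj : ∀ w ∈ W, ∀ j ∈ w.2, a ≤ (j : ℝ) * δ := by
    intro w hw j hj
    rw [hWd] at hw
    have h1 := (mem_sv J0 m false M w hw j hj).1
    have h2 : (J0 : ℝ) ≤ j := by exact_mod_cast h1
    rw [← hJδ]
    exact mul_le_mul_of_nonneg_right h2 hδ.le
  have hWs : ∀ w ∈ W, (size w.2 : ℝ) * δ ≤ D := by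
    intro w hw
    rw [hWd] at hw
    have h1 := size_lower J0 m M h2m w hw
    have h2 : (size w.2 : ℝ) ≤ M := by exact_mod_cast h1
    exact (mul_le_mul_of_nonneg_right h2 hδ.le).trans hMD
  have hmva : mva W mu ≤ 2 * θ / a := by
    rw [hWd]
    refine (mva_sv J0 hJ0 m false M).trans ?_
    rw [max_eq_left hJm, div_le_div_iff₀ hJR ha0]
    have : (m : ℝ) * a = m * δ * J0 := by rw [← hJδ]; ring
    rw [this]
    exact mul_le_mul_of_nonneg_right hm2θ hJR.le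
  obtain ⟨hT1, hT2⟩ := mvt_tendsto a δ hδ ha0 W hWj
  obtain ⟨x0, hx0, hfl⟩ := hfl B η a hB10 ha0 ha1 haη
  obtain ⟨c', hc', hVV⟩ := VV_lower
  have ev1 : ∀ᶠ x : ℝ in atTop, 3 / 4 * (c * a) ≤ mvt W x δ := by
    have h1 : 3 / 4 * (c * a) < mv W mu := by
      have : 0 < c * a := by positivity
      linarith
    filter_upwards [hT1.eventually_const_lt h1] with x hx using hx.le
  have ev2 : ∀ᶠ x : ℝ in atTop, mvat W x δ ≤ 4 * θ / a := by
    have h1 : mva W mu < 4 * θ / a := by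
      refine lt_of_le_of_lt hmva ?_
      rw [div_lt_div_iff_of_pos_right ha0]
      linarith
    filter_upwards [hT2.eventually_lt_const h1] with x hx using hx.le
  have ev3 : ∀ᶠ x : ℝ in atTop, 3 ≤ x ^ a := (tendsto_rpow_atTop ha0).eventually_ge_atTop 3
  obtain ⟨K, hK⟩ : ∃ K : ℝ, K = c * a * c' / 8 := ⟨_, rfl⟩
  have hK0 : 0 < K := by rw [hK]; positivity
  have hcw : 0 ≤ cw W := by
    unfold cw
    apply List.sum_nonneg
    intro y hy
    obtain ⟨w, -, rfl⟩ := List.mem_map.1 hy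
    positivity
  have ev4 : ∀ᶠ x : ℝ in atTop, C0 * cw W * Real.log x ≤ K * x ^ (2 * η) := by
    have h1 : (fun x : ℝ => C0 * cw W * Real.log x) =o[atTop] fun x : ℝ => x ^ (2 * η) :=
      (isLittleO_log_rpow_atTop (by positivity)).const_mul_left _
    filter_upwards [h1.bound hK0, eventually_gt_atTop (1 : ℝ)] with x hx hx1
    have h2 : 0 ≤ x ^ (2 * η) := by positivity
    rw [Real.norm_of_nonneg h2] at hx
    exact (le_abs_self _).trans hx
  have hev := ev1.and (ev2.and (ev3.and (ev4.and (eventually_ge_atTop (max x0 3)))))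
  obtain ⟨X0, hX0⟩ := (tendsto_natCast_atTop_atTop (R := ℝ)).eventually hev |>.exists_forall_of_atTop
  refine ⟨K, hK0, X0, ?_⟩
  intro X hX
  obtain ⟨e1, e2, e3, e4, e5⟩ := hX0 X hX
  obtain ⟨x, hxd⟩ : ∃ x : ℝ, x = (X : ℝ) := ⟨_, rfl⟩
  rw [← hxd] at e1 e2 e3 e4 e5 ⊢
  have hx3 : 3 ≤ x := (le_max_right _ _).trans e5
  have hx1 : 1 < x := by linarith
  have hx0' : 0 < x := by linarith
  have hlx : 0 < Real.log x := Real.log_pos hx1
  obtain ⟨z, hz⟩ : ∃ z : ℝ, z = ((⌈x ^ a⌉₊ - 1 : ℕ) : ℝ) := ⟨_, rfl⟩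
  have hceil : 3 ≤ ⌈x ^ a⌉₊ := by
    have : (3 : ℝ) ≤ (⌈x ^ a⌉₊ : ℝ) := e3.trans (Nat.le_ceil _)
    exact_mod_cast this
  have hz2 : 2 ≤ z := by
    rw [hz]
    have : 2 ≤ ⌈x ^ a⌉₊ - 1 := by omega
    exact_mod_cast this
  have hzx : z < x ^ a := by
    have h1 := Nat.ceil_lt_add_one (show 0 ≤ x ^ a by positivity)
    rw [hz, Nat.cast_sub (by omega)]
    push_cast
    linarith
  have h := fun Q hQ => hfl X x ((le_max_left _ _).trans e5) z hz2 hzx.le Q hQ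
  have hmain := pat_all hκ0 hC0.le hx1 hδ X B z hzx h W (fun w hw => ⟨hWj w hw, hWs w hw⟩)
  have hexp : D * (1 + κ) + 2 * η = 1 - 2 * η := by rw [hη]; ring
  rw [hexp, ← hxd] at hmain
  have hV0 := VV_nonneg z
  have hV : c' / Real.log x ≤ VV z := by
    refine le_trans ?_ (hVV z hz2)
    apply div_le_div_of_nonneg_left hc'.le (Real.log_pos (by linarith))
    apply Real.log_le_log (by linarith)
    refine hzx.le.trans ?_
    calc x ^ a ≤ x ^ (1 : ℝ) := Real.rpow_le_rpow_of_exponent_le hx1.le ha1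
      _ = x := Real.rpow_one x
  have hsum := (abs_le.1 hmain).1
  have h1 : (1 / 2 : ℝ) ^ B * mvat W x δ ≤ c * a / 2 := by
    have h2 : (1 / 2 : ℝ) ^ B * mvat W x δ ≤ (1 / 2 : ℝ) ^ B * (4 * θ / a) :=
      mul_le_mul_of_nonneg_left e2 (by positivity)
    refine h2.trans ?_
    rw [mul_div_assoc', div_le_iff₀ ha0]
    linarith [hBc]
  have h2 : c * a / 4 ≤ mvt W x δ - (1 / 2 : ℝ) ^ B * mvat W x δ := by linarith
  have h3 : x * VV z * (c * a / 4) ≤ x * VV z * (mvt W x δ - (1 / 2 : ℝ) ^ B * mvat W x δ) :=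
    mul_le_mul_of_nonneg_left h2 (by positivity)
  have h4 : 2 * K * (x / Real.log x) ≤ x * VV z * (c * a / 4) := by
    have h5 : x * (c' / Real.log x) ≤ x * VV z := mul_le_mul_of_nonneg_left hV hx0'.le
    have h6 := mul_le_mul_of_nonneg_right h5 (show 0 ≤ c * a / 4 by positivity)
    refine le_trans (le_of_eq ?_) h6
    rw [hK]
    ring
  have h5 : C0 * cw W * x ^ (1 - 2 * η) ≤ K * (x / Real.log x) := by
    rw [mul_div_assoc', le_div_iff₀ hlx]
    have h6 : x ^ (1 - 2 * η) * x ^ (2 * η) = x := by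
      rw [← Real.rpow_add hx0']
      have : 1 - 2 * η + 2 * η = 1 := by ring
      rw [this, Real.rpow_one]
    calc C0 * cw W * x ^ (1 - 2 * η) * Real.log x = x ^ (1 - 2 * η) * (C0 * cw W * Real.log x) := by ring
      _ ≤ x ^ (1 - 2 * η) * (K * x ^ (2 * η)) := mul_le_mul_of_nonneg_left e4 (by positivity)
      _ = K * (x ^ (1 - 2 * η) * x ^ (2 * η)) := by ring
      _ = K * x := by rw [h6]
  classical
  have h6 : ∑ k ∈ Icc 1 X, (if Free z k then (1 : ℝ) else 0) * ev W (kk x δ (k * 2 ^ k - 1)) ≤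
      NN X (x ^ θ) := by
    rw [NN_eq]
    refine Finset.sum_le_sum fun k hk => ?_
    have hk1 := (Finset.mem_Icc.1 hk).1
    have h7 := (pw J0 (kk x δ (k * 2 ^ k - 1)) m M).1
    rw [← hWd] at h7
    by_cases hf : Free z k
    · rw [if_pos hf, one_mul]
      refine h7.trans ?_
      by_cases hb : ∀ j, J0 ≤ j → j < m → kk x δ (k * 2 ^ k - 1) j = 0
      · have h8 := free_of_boxes hx1 J0 m hJδ hJm hmθ z hz k hk1 hf hb
        rw [if_pos h8]
        exact ind_le_one _ _ _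
      · unfold ind
        rw [if_neg hb]
        split_ifs <;> norm_num
    · rw [if_neg hf, zero_mul]
      split_ifs <;> norm_num
  have h7 : K * (x / Real.log x) ≤
      ∑ k ∈ Icc 1 X, (if Free z k then (1 : ℝ) else 0) * ev W (kk x δ (k * 2 ^ k - 1)) := by
    have h8 : x * VV z * mvt W x δ - (1 / 2 : ℝ) ^ B * (x * VV z * mvat W x δ) =
        x * VV z * (mvt W x δ - (1 / 2 : ℝ) ^ B * mvat W x δ) := by ring
    linarith
  exact h7.trans h6

end Pool.Agent.H5.WD
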