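import Mathlib
import Pool.Agent.H5.WD.Exp

/-!
[H5 WD Tsum]  Twisted sums over the powers of `h` modulo `e` and the sum over `k < X`.
-/

set_option autoImplicit false

namespace Pool.Agent.H5.WD

open Finset ZMod

variable {e : ℕ} [NeZero e]

instance ordNeZero (h : (ZMod e)ˣ) : NeZero (orderOf h) := ⟨(orderOf_pos h).ne'⟩

/-- `h^s` for `s` modulo the order -/
noncomputable def hp (h : (ZMod e)ˣ) (s : ZMod (orderOf h)) : ZMod e := ((h ^ s.val : (ZMod e)ˣ) : ZMod e)

theorem hp_natCast (h : (ZMod e)ˣ) (k : ℕ) :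
    hp h (k : ZMod (orderOf h)) = ((h ^ k : (ZMod e)ˣ) : ZMod e) := by
  unfold hp
  rw [ZMod.val_natCast, pow_mod_orderOf]

theorem hp_add (h : (ZMod e)ˣ) (s j : ZMod (orderOf h)) : hp h (s + j) = hp h s * hp h j := by
  unfold hp
  rw [ZMod.val_add, pow_mod_orderOf, pow_add, Units.val_mul]

theorem hp_inj (h : (ZMod e)ˣ) : Function.Injective (hp h) := by
  intro s j hsj
  unfold hp at hsj
  have h1 : h ^ s.val = h ^ j.val := Units.ext hsj
  have h2 := pow_injOn_Iio_orderOf (x := h) (ZMod.val_lt s) (ZMod.val_lt j) h1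
  exact ZMod.val_injective _ h2

/-- the twisted sum -/
noncomputable def Tw (h : (ZMod e)ˣ) (a : ZMod e) (β : ZMod (orderOf h)) : ℂ :=
  ∑ s : ZMod (orderOf h), stdAddChar (-(a * hp h s)) * stdAddChar (s * β)

/-- Fourier inversion -/
theorem tw_inv (h : (ZMod e)ˣ) (a : ZMod e) (s : ZMod (orderOf h)) :
    ∑ β : ZMod (orderOf h), Tw h a β * stdAddChar (-(s * β)) =
      (orderOf h : ℂ) * stdAddChar (-(a * hp h s)) := by
  classical
  unfold Tw
  have h1 : ∀ β : ZMod (orderOf h), (∑ s' : ZMod (orderOf h), stdAddChar (-(a * hp h s')) *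
      stdAddChar (s' * β)) * (stdAddChar (-(s * β)) : ℂ) =
      ∑ s' : ZMod (orderOf h), stdAddChar (-(a * hp h s')) * stdAddChar (β * (s' - s)) := by
    intro β
    rw [Finset.sum_mul]
    refine Finset.sum_congr rfl fun s' _ => ?_
    rw [mul_assoc, ← AddChar.map_add_eq_mul]
    congr 2
    ring
  rw [Finset.sum_congr rfl fun β _ => h1 β, Finset.sum_comm]
  have h2 : ∀ s' : ZMod (orderOf h), ∑ β : ZMod (orderOf h), (stdAddChar (-(a * hp h s')) : ℂ) *
      stdAddChar (β * (s' - s)) = stdAddChar (-(a * hp h s')) * (if s' - s = 0 then (orderOf h : ℂ) else 0) := by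
    intro s'
    rw [← Finset.mul_sum, AddChar.sum_mulShift _ (ZMod.isPrimitive_stdAddChar _)]
    congr 1
    split_ifs
    · rw [ZMod.card]
    · simp
  rw [Finset.sum_congr rfl fun s' _ => h2 s', Finset.sum_eq_single s]
  · rw [sub_self, if_pos rfl, mul_comm]
  · intro s' _ hne
    rw [if_neg (sub_ne_zero.2 hne), mul_zero]
  · intro h3
    exact absurd (mem_univ _) h3

theorem tw_shift (h : (ZMod e)ˣ) (a : ZMod e) (β j : ZMod (orderOf h)) :
    ‖Tw h (a * hp h j) β‖ = ‖Tw h a β‖ := by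
  have h1 : Tw h (a * hp h j) β = stdAddChar (-(j * β)) * Tw h a β := by
    unfold Tw
    rw [← Equiv.sum_comp (Equiv.addRight j) (fun s => (stdAddChar (-(a * hp h s)) * stdAddChar (s * β) : ℂ)),
      Finset.mul_sum]
    refine Finset.sum_congr rfl fun s _ => ?_
    simp only [Equiv.coe_addRight]
    rw [hp_add]
    have e1 : (s + j) * β = s * β + j * β := by ring
    have e2 : a * hp h j * hp h s = a * (hp h s * hp h j) := by ring
    rw [e1, AddChar.map_add_eq_mul, e2]
    have e3 : (stdAddChar (-(j * β)) : ℂ) * stdAddChar (j * β) = 1 := by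
      rw [← AddChar.map_add_eq_mul, neg_add_cancel, AddChar.map_zero_eq_one]
    calc _ = stdAddChar (-(a * (hp h s * hp h j))) * (stdAddChar (s * β) : ℂ) * 1 := by rw [mul_one]
      _ = stdAddChar (-(a * (hp h s * hp h j))) * (stdAddChar (s * β) : ℂ) *
          (stdAddChar (-(j * β)) * stdAddChar (j * β)) := by rw [e3]
      _ = _ := by ring
  rw [h1, norm_mul, AddChar.norm_apply, one_mul]

theorem tw_parseval (h : (ZMod e)ˣ) (β : ZMod (orderOf h)) :
    ∑ u : ZMod e, ‖Tw h u β‖ ^ 2 = (e : ℝ) * orderOf h := by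
  classical
  have h1 : ∀ u : ZMod e, ((‖Tw h u β‖ ^ 2 : ℝ) : ℂ) =
      ∑ s : ZMod (orderOf h), ∑ s' : ZMod (orderOf h),
        stdAddChar ((s - s') * β) * stdAddChar (u * (hp h s' - hp h s)) := by
    intro u
    have h2 : ((‖Tw h u β‖ ^ 2 : ℝ) : ℂ) = Tw h u β * (starRingEnd ℂ) (Tw h u β) := by
      rw [Complex.mul_conj, Complex.normSq_eq_norm_sq]
    rw [h2]
    unfold Tw
    rw [map_sum, Finset.sum_mul_sum]
    refine Finset.sum_congr rfl fun s _ => Finset.sum_congr rfl fun s' _ => ?_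
    rw [map_mul (starRingEnd ℂ), ← AddChar.map_neg_eq_conj, ← AddChar.map_neg_eq_conj, neg_neg]
    have e1 : (s - s') * β = s * β + -(s' * β) := by ring
    have e2 : u * (hp h s' - hp h s) = -(u * hp h s) + u * hp h s' := by ring
    rw [e1, e2, AddChar.map_add_eq_mul, AddChar.map_add_eq_mul]
    ring
  have h3 : ((∑ u : ZMod e, ‖Tw h u β‖ ^ 2 : ℝ) : ℂ) = ((e : ℝ) * orderOf h : ℝ) := by
    push_cast
    have h4 : ∑ u : ZMod e, ((‖Tw h u β‖ : ℂ)) ^ 2 = ∑ u : ZMod e,
      ∑ s : ZMod (orderOf h), ∑ s' : ZMod (orderOf h),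
        (stdAddChar ((s - s') * β) : ℂ) * stdAddChar (u * (hp h s' - hp h s)) := by
      refine Finset.sum_congr rfl fun u _ => ?_
      rw [← h1 u]
      push_cast
      rfl
    rw [h4, Finset.sum_comm]
    have h5 : ∀ s : ZMod (orderOf h), ∑ u : ZMod e, ∑ s' : ZMod (orderOf h),
        (stdAddChar ((s - s') * β) : ℂ) * stdAddChar (u * (hp h s' - hp h s)) = e := by
      intro s
      rw [Finset.sum_comm]
      have h6 : ∀ s' : ZMod (orderOf h), ∑ u : ZMod e,
          (stdAddChar ((s - s') * β) : ℂ) * stdAddChar (u * (hp h s' - hp h s)) =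
          stdAddChar ((s - s') * β) * (if s' = s then (e : ℂ) else 0) := by
        intro s'
        rw [← Finset.mul_sum, AddChar.sum_mulShift _ (ZMod.isPrimitive_stdAddChar _)]
        congr 1
        by_cases hs : s' = s
        · rw [if_pos hs, if_pos (by rw [hs, sub_self]), ZMod.card]
        · rw [if_neg hs, if_neg]
          · simp
          · intro h7
            exact hs (hp_inj h (sub_eq_zero.1 h7))
      rw [Finset.sum_congr rfl fun s' _ => h6 s', Finset.sum_eq_single s]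
      · rw [if_pos rfl, sub_self, zero_mul, AddChar.map_zero_eq_one, one_mul]
      · intro s' _ hne
        rw [if_neg hne, mul_zero]
      · intro h7
        exact absurd (mem_univ _) h7
    rw [Finset.sum_congr rfl fun s _ => h5 s, Finset.sum_const, Finset.card_univ, ZMod.card,
      nsmul_eq_mul, mul_comm]
  exact_mod_cast h3

theorem tw_bound (h : (ZMod e)ˣ) (a : (ZMod e)ˣ) (β : ZMod (orderOf h)) :
    ‖Tw h (a : ZMod e) β‖ ≤ Real.sqrt e := by
  classical
  have h1 : (orderOf h : ℝ) * ‖Tw h (a : ZMod e) β‖ ^ 2 ≤ (e : ℝ) * orderOf h := by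
    rw [← tw_parseval h β]
    have h2 : (orderOf h : ℝ) * ‖Tw h (a : ZMod e) β‖ ^ 2 =
        ∑ j : ZMod (orderOf h), ‖Tw h ((a : ZMod e) * hp h j) β‖ ^ 2 := by
      rw [Finset.sum_congr rfl fun j _ => by rw [tw_shift h (a : ZMod e) β j], Finset.sum_const,
        Finset.card_univ, ZMod.card, nsmul_eq_mul]
    rw [h2]
    have hinj : Function.Injective fun j : ZMod (orderOf h) => (a : ZMod e) * hp h j := by
      intro i j hij
      have h3 : (a : ZMod e) * hp h i = (a : ZMod e) * hp h j := hij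
      exact hp_inj h ((Units.mul_right_inj a).1 h3)
    rw [← Finset.sum_image (f := fun u => ‖Tw h u β‖ ^ 2) (fun i _ j _ hij => hinj hij)]
    exact Finset.sum_le_sum_of_subset_of_nonneg (Finset.subset_univ _) fun _ _ _ => by positivity
  have h0 : (0 : ℝ) < orderOf h := by exact_mod_cast orderOf_pos h
  have h2 : ‖Tw h (a : ZMod e) β‖ ^ 2 ≤ e := by
    rw [mul_comm (e : ℝ)] at h1
    exact le_of_mul_le_mul_left h1 h0
  exact Real.le_sqrt_of_sq_le h2

/-- the homomorphism `a ↦ t a` from `ZMod e` to `ZMod (e t)` -/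
noncomputable def up1 (e t : ℕ) : ZMod e →+ ZMod (e * t) :=
  ZMod.lift e ⟨zmultiplesHom (ZMod (e * t)) (t : ZMod (e * t)), by
    rw [zmultiplesHom_apply, natCast_zsmul, nsmul_eq_mul, ← Nat.cast_mul, ZMod.natCast_self]⟩

theorem up1_char (e t : ℕ) [NeZero e] [NeZero t] [NeZero (e * t)] (a : ZMod e) :
    (stdAddChar (up1 e t a) : ℂ) = stdAddChar a := by
  have h1 : a = ((a.val : ℤ) : ZMod e) := by rw [Int.cast_natCast, ZMod.natCast_zmod_val]
  conv_lhs => rw [h1]
  conv_rhs => rw [h1]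
  have h2 : up1 e t ((a.val : ℤ) : ZMod e) = (((a.val : ℤ) * t : ℤ) : ZMod (e * t)) := by
    unfold up1
    rw [ZMod.lift_coe]
    rw [zmultiplesHom_apply, zsmul_eq_mul]
    push_cast
    rfl
  rw [h2, ZMod.stdAddChar_coe, ZMod.stdAddChar_coe]
  congr 1
  have he : (e : ℂ) ≠ 0 := by exact_mod_cast NeZero.ne e
  have ht : (t : ℂ) ≠ 0 := by exact_mod_cast NeZero.ne t
  push_cast
  field_simp

/-- the homomorphism `b ↦ e b` from `ZMod t` to `ZMod (e t)` -/
noncomputable def up2 (e t : ℕ) : ZMod t →+ ZMod (e * t) :=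
  ZMod.lift t ⟨zmultiplesHom (ZMod (e * t)) (e : ZMod (e * t)), by
    rw [zmultiplesHom_apply, natCast_zsmul, nsmul_eq_mul, ← Nat.cast_mul, mul_comm t e, ZMod.natCast_self]⟩

theorem up2_char (e t : ℕ) [NeZero e] [NeZero t] [NeZero (e * t)] (b : ZMod t) :
    (stdAddChar (up2 e t b) : ℂ) = stdAddChar b := by
  have h1 : b = ((b.val : ℤ) : ZMod t) := by rw [Int.cast_natCast, ZMod.natCast_zmod_val]
  conv_lhs => rw [h1]
  conv_rhs => rw [h1]
  have h2 : up2 e t ((b.val : ℤ) : ZMod t) = (((b.val : ℤ) * e : ℤ) : ZMod (e * t)) := by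
    unfold up2
    rw [ZMod.lift_coe]
    rw [zmultiplesHom_apply, zsmul_eq_mul]
    push_cast
    rfl
  rw [h2, ZMod.stdAddChar_coe, ZMod.stdAddChar_coe]
  congr 1
  have he : (e : ℂ) ≠ 0 := by exact_mod_cast NeZero.ne e
  have ht : (t : ℂ) ≠ 0 := by exact_mod_cast NeZero.ne t
  push_cast
  field_simp

/-- the frequency map -/
noncomputable def fr (e t : ℕ) : ZMod e × ZMod t →+ ZMod (e * t) :=
  (up1 e t).comp (AddMonoidHom.fst _ _) - (up2 e t).comp (AddMonoidHom.snd _ _)

theorem fr_char (e t : ℕ) [NeZero e] [NeZero t] [NeZero (e * t)] (x : ZMod e × ZMod t) (k : ℕ) :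
    (stdAddChar ((k : ZMod (e * t)) * fr e t x) : ℂ) =
      stdAddChar ((k : ZMod e) * x.1) * stdAddChar (-((k : ZMod t) * x.2)) := by
  have h1 : (stdAddChar (fr e t x) : ℂ) = stdAddChar x.1 * stdAddChar (-x.2) := by
    have h2 : fr e t x = up1 e t x.1 + up2 e t (-x.2) := by
      unfold fr
      rw [AddMonoidHom.sub_apply, map_neg]
      simp [sub_eq_add_neg]
    rw [h2, AddChar.map_add_eq_mul, up1_char, up2_char]
  rw [← nsmul_eq_mul, AddChar.map_nsmul_eq_pow, h1, mul_pow, ← AddChar.map_nsmul_eq_pow,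
    ← AddChar.map_nsmul_eq_pow, nsmul_eq_mul, nsmul_eq_mul, mul_neg]

/-- the frequencies of units do not vanish -/
theorem fr_ne (e t : ℕ) [NeZero e] [NeZero t] [NeZero (e * t)] (het : ¬ e ∣ t) (a : (ZMod e)ˣ) (b : ZMod t) :
    fr e t ((a : ZMod e), b) ≠ 0 := by
  intro h0
  have h1 := fr_char e t ((a : ZMod e), b) t
  rw [h0, mul_zero, AddChar.map_zero_eq_one] at h1
  have h2 : ((t : ZMod t) * b) = 0 := by rw [ZMod.natCast_self, zero_mul]
  simp only at h1
  rw [h2, neg_zero, AddChar.map_zero_eq_one, mul_one] at h1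
  have h3 : (stdAddChar ((t : ZMod e) * (a : ZMod e)) : ℂ) = stdAddChar (0 : ZMod e) := by
    rw [← h1, AddChar.map_zero_eq_one]
  have h4 := ZMod.injective_stdAddChar h3
  have h5 : (t : ZMod e) = 0 := (Units.mul_left_eq_zero a).1 h4
  rw [ZMod.natCast_eq_zero_iff] at h5
  exact het h5

/-- the sum over `k` -/
noncomputable def Sk (h : (ZMod e)ˣ) (a : ZMod e) (X : ℕ) : ℂ :=
  ∑ k ∈ range X, stdAddChar (a * ((k : ZMod e) - ((h ^ k : (ZMod e)ˣ) : ZMod e)))

theorem sk_bound (h : (ZMod e)ˣ) (het : ¬ e ∣ orderOf h) (X : ℕ) (a : (ZMod e)ˣ) :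
    (orderOf h : ℝ) * ‖Sk h (a : ZMod e) X‖ ≤ Real.sqrt e *
      ∑ β : ZMod (orderOf h), (if fr e (orderOf h) ((a : ZMod e), β) = 0 then (0 : ℝ) else
        gw (e * orderOf h) (fr e (orderOf h) ((a : ZMod e), β)).val) := by
  haveI : NeZero (e * orderOf h) := ⟨Nat.mul_ne_zero (NeZero.ne e) (NeZero.ne _)⟩
  have h1 : (orderOf h : ℂ) * Sk h (a : ZMod e) X =
      ∑ β : ZMod (orderOf h), Tw h (a : ZMod e) β *
        ∑ k ∈ range X, stdAddChar ((k : ZMod (e * orderOf h)) * fr e (orderOf h) ((a : ZMod e), β)) := by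
    unfold Sk
    rw [Finset.mul_sum]
    have h2 : ∀ k ∈ range X, (orderOf h : ℂ) *
        stdAddChar ((a : ZMod e) * ((k : ZMod e) - ((h ^ k : (ZMod e)ˣ) : ZMod e))) =
        ∑ β : ZMod (orderOf h), Tw h (a : ZMod e) β *
          stdAddChar ((k : ZMod (e * orderOf h)) * fr e (orderOf h) ((a : ZMod e), β)) := by
      intro k _
      have h3 := tw_inv h (a : ZMod e) (k : ZMod (orderOf h))
      rw [hp_natCast] at h3
      have e1 : (a : ZMod e) * ((k : ZMod e) - ((h ^ k : (ZMod e)ˣ) : ZMod e)) =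
          (k : ZMod e) * (a : ZMod e) + -((a : ZMod e) * ((h ^ k : (ZMod e)ˣ) : ZMod e)) := by ring
      rw [e1, AddChar.map_add_eq_mul]
      calc (orderOf h : ℂ) * (stdAddChar ((k : ZMod e) * (a : ZMod e)) *
            stdAddChar (-((a : ZMod e) * ((h ^ k : (ZMod e)ˣ) : ZMod e)))) =
          stdAddChar ((k : ZMod e) * (a : ZMod e)) * ((orderOf h : ℂ) *
            stdAddChar (-((a : ZMod e) * ((h ^ k : (ZMod e)ˣ) : ZMod e)))) := by ring
        _ = ∑ β : ZMod (orderOf h), stdAddChar ((k : ZMod e) * (a : ZMod e)) *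
              (Tw h (a : ZMod e) β * stdAddChar (-((k : ZMod (orderOf h)) * β))) := by
            rw [← h3, Finset.mul_sum]
        _ = _ := by
            refine Finset.sum_congr rfl fun β _ => ?_
            rw [fr_char]
            ring
    rw [Finset.sum_congr rfl h2, Finset.sum_comm]
    refine Finset.sum_congr rfl fun β _ => ?_
    rw [Finset.mul_sum]
  have h2 : (orderOf h : ℝ) * ‖Sk h (a : ZMod e) X‖ = ‖(orderOf h : ℂ) * Sk h (a : ZMod e) X‖ := by
    rw [norm_mul, Complex.norm_natCast]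
  rw [h2, h1]
  refine (norm_sum_le _ _).trans ?_
  rw [Finset.mul_sum]
  refine Finset.sum_le_sum fun β _ => ?_
  rw [norm_mul]
  have h3 := fr_ne e (orderOf h) het a β
  rw [if_neg h3]
  refine mul_le_mul (tw_bound h a β) ?_ (norm_nonneg _) (Real.sqrt_nonneg _)
  have h4 := wd_geo (fr e (orderOf h) ((a : ZMod e), β)) h3
  rcases Nat.eq_zero_or_pos X with hX | hX
  · subst hX
    rw [Finset.range_zero, Finset.sum_empty, norm_zero]
    exact gw_nonneg (ZMod.val_lt _)
  · have h5 : ∑ k ∈ range X, (stdAddChar ((k : ZMod (e * orderOf h)) * fr e (orderOf h) ((a : ZMod e), β)) : ℂ) =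
        stdAddChar (fr e (orderOf h) ((a : ZMod e), β)) ^ 0 * ∑ k ∈ range X,
          (stdAddChar ((k : ZMod (e * orderOf h)) * fr e (orderOf h) ((a : ZMod e), β)) : ℂ) := by
      rw [pow_zero, one_mul]
    have h6 : ‖∑ k ∈ range X, (stdAddChar ((k : ZMod (e * orderOf h)) * fr e (orderOf h) ((a : ZMod e), β)) : ℂ)‖ =
        ‖∑ k ∈ Ioc 0 X, (stdAddChar ((k : ZMod (e * orderOf h)) * fr e (orderOf h) ((a : ZMod e), β)) : ℂ)‖ := by
      have h7 : ∑ k ∈ Ioc 0 X, (stdAddChar ((k : ZMod (e * orderOf h)) * fr e (orderOf h) ((a : ZMod e), β)) : ℂ) =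
          stdAddChar (fr e (orderOf h) ((a : ZMod e), β)) *
          ∑ k ∈ range X, (stdAddChar ((k : ZMod (e * orderOf h)) * fr e (orderOf h) ((a : ZMod e), β)) : ℂ) := by
        rw [Finset.mul_sum]
        refine Finset.sum_nbij' (fun k => k - 1) (fun k => k + 1) ?_ ?_ ?_ ?_ ?_
        · intro k hk
          rw [mem_Ioc] at hk
          rw [mem_range]
          omega
        · intro k hk
          rw [mem_range] at hk
          rw [mem_Ioc]
          omega
        · intro k hk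
          rw [mem_Ioc] at hk
          omega
        · intro k _
          omega
        · intro k hk
          rw [mem_Ioc] at hk
          rw [← AddChar.map_add_eq_mul]
          congr 1
          obtain ⟨j, rfl⟩ : ∃ j, k = j + 1 := ⟨k - 1, by omega⟩
          rw [Nat.add_sub_cancel]
          push_cast
          ring
      rw [h7, norm_mul, AddChar.norm_apply, one_mul]
    rw [h6]
    exact h4 0 X

/-- the sum over the units -/
theorem sum_units (h : (ZMod e)ˣ) (het : ¬ e ∣ orderOf h) (X : ℕ) :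
    ∑ a : (ZMod e)ˣ, ‖Sk h (a : ZMod e) X‖ ≤ e * Real.sqrt e * (1 + Real.log (e * orderOf h : ℕ)) := by
  classical
  haveI : NeZero (e * orderOf h) := ⟨Nat.mul_ne_zero (NeZero.ne e) (NeZero.ne _)⟩
  have ht : (0 : ℝ) < orderOf h := by exact_mod_cast orderOf_pos h
  have h1 : (orderOf h : ℝ) * ∑ a : (ZMod e)ˣ, ‖Sk h (a : ZMod e) X‖ ≤
      Real.sqrt e * ((e * orderOf h : ℕ) * (1 + Real.log (e * orderOf h : ℕ))) := by
    rw [Finset.mul_sum]
    refine (Finset.sum_le_sum fun a _ => sk_bound h het X a).trans ?_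
    rw [← Finset.mul_sum]
    refine mul_le_mul_of_nonneg_left ?_ (Real.sqrt_nonneg _)
    have h2 := sum_hom (G := ZMod e × ZMod (orderOf h)) (N := e * orderOf h)
      (by rw [Fintype.card_prod, ZMod.card, ZMod.card]) (fr e (orderOf h))
    refine le_trans ?_ h2
    rw [Fintype.sum_prod_type]
    have h3 : ∀ a : ZMod e, 0 ≤ ∑ β : ZMod (orderOf h), (if fr e (orderOf h) (a, β) = 0 then (0 : ℝ) else
        gw (e * orderOf h) (fr e (orderOf h) (a, β)).val) := by
      intro a
      refine Finset.sum_nonneg fun β _ => ?_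
      split_ifs
      · exact le_rfl
      · exact gw_nonneg (ZMod.val_lt _)
    rw [← Finset.sum_image (s := (univ : Finset (ZMod e)ˣ)) (g := fun a : (ZMod e)ˣ => (a : ZMod e))
      (f := fun a : ZMod e => ∑ β : ZMod (orderOf h), (if fr e (orderOf h) (a, β) = 0 then (0 : ℝ) else
        gw (e * orderOf h) (fr e (orderOf h) (a, β)).val)) (fun a _ b _ hab => Units.ext hab)]
    exact Finset.sum_le_sum_of_subset_of_nonneg (Finset.subset_univ _) fun a _ _ => h3 a
  have h2 : Real.sqrt e * ((e * orderOf h : ℕ) * (1 + Real.log (e * orderOf h : ℕ))) =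
      (orderOf h : ℝ) * (e * Real.sqrt e * (1 + Real.log (e * orderOf h : ℕ))) := by
    push_cast
    ring
  rw [h2] at h1
  exact le_of_mul_le_mul_left h1 ht

end Pool.Agent.H5.WD
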