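import Mathlib
import Pool.Agent.H5.WD.Tsum
import Pool.Agent.H5.WD.Sieve

/-!
[H5 WD Lev]  Level of distribution `2/3 - ε`: the number of `k < X` with `d ∣ k 2^k - 1` is `X/d + O(d^(1/2+ε))`.
-/

set_option autoImplicit false

namespace Pool.Agent.H5.WD

open Finset ZMod

/-- the sum at the fraction `j/n` -/
noncomputable def Gs (H X n j : ℕ) : ℝ :=
  ‖∑ k ∈ range X, Complex.exp (2 * Real.pi * Complex.I * (((j : ℤ) * ((k : ℤ) - (H : ℤ) ^ k) : ℤ) : ℂ) / (n : ℂ))‖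

theorem gs_nonneg (H X n j : ℕ) : 0 ≤ Gs H X n j := norm_nonneg _

theorem gs_eq (H X n j : ℕ) [NeZero n] (h : (ZMod n)ˣ) (hh : (h : ZMod n) = (H : ZMod n)) :
    ‖Sk h (j : ZMod n) X‖ = Gs H X n j := by
  unfold Sk Gs
  congr 1
  refine Finset.sum_congr rfl fun k _ => ?_
  rw [← ZMod.stdAddChar_coe]
  congr 1
  rw [Units.val_pow_eq_pow_val, hh]
  push_cast
  rfl

theorem gs_scale (H X n j g : ℕ) (hg : 0 < g) : Gs H X (g * n) (g * j) = Gs H X n j := by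
  unfold Gs
  congr 1
  refine Finset.sum_congr rfl fun k _ => ?_
  congr 1
  have : (g : ℂ) ≠ 0 := by exact_mod_cast hg.ne'
  push_cast
  rcases Nat.eq_zero_or_pos n with hn | hn
  · subst hn; simp
  · have hn' : (n : ℂ) ≠ 0 := by exact_mod_cast hn.ne'
    field_simp

/-- the unit `1/2` modulo a divisor of `d` -/
theorem half_unit {d n : ℕ} (hd : d % 2 = 1) (hn : n ∣ d) :
    ∃ h : (ZMod n)ˣ, (h : ZMod n) = (((d + 1) / 2 : ℕ) : ZMod n) ∧ (h : ZMod n) * 2 = 1 := by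
  have h1 : ((((d + 1) / 2 : ℕ) : ZMod n)) * 2 = 1 := by
    have h2 : (d + 1) / 2 * 2 = d + 1 := by omega
    have h3 : ((((d + 1) / 2 * 2 : ℕ)) : ZMod n) = ((d + 1 : ℕ) : ZMod n) := by rw [h2]
    push_cast at h3
    rw [h3, (ZMod.natCast_eq_zero_iff d n).2 hn, zero_add]
  refine ⟨⟨_, 2, h1, by rw [mul_comm]; exact h1⟩, rfl, h1⟩

theorem sum_coprime {d n : ℕ} (hd : d % 2 = 1) (hn : n ∣ d) (hn1 : n ≠ 1) (X : ℕ) :
    ∑ j ∈ (range n).filter (fun j => Nat.Coprime j n), Gs ((d + 1) / 2) X n j ≤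
      (n : ℝ) ^ (3 / 2 : ℝ) * (1 + 2 * Real.log n) := by
  classical
  have hd0 : 0 < d := by omega
  have hn0 : 0 < n := Nat.pos_of_dvd_of_pos hn hd0
  haveI : NeZero n := ⟨hn0.ne'⟩
  obtain ⟨h, hh, -⟩ := half_unit hd hn
  have hn2 : 2 ≤ n := by omega
  have hcard : orderOf h ∣ n.totient := by
    have := orderOf_dvd_card (x := h)
    rwa [ZMod.card_units_eq_totient] at this
  have hlt : n.totient < n := Nat.totient_lt n (by omega)
  have htot : 0 < n.totient := Nat.totient_pos.2 hn0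
  have hord : orderOf h ≤ n.totient := Nat.le_of_dvd htot hcard
  have het : ¬ n ∣ orderOf h := by
    intro hdvd
    have := Nat.le_of_dvd (orderOf_pos h) hdvd
    omega
  have h1 := sum_units h het X
  have h2 : ∑ j ∈ (range n).filter (fun j => Nat.Coprime j n), Gs ((d + 1) / 2) X n j =
      ∑ a : (ZMod n)ˣ, ‖Sk h (a : ZMod n) X‖ := by
    symm
    refine Finset.sum_bij (fun (a : (ZMod n)ˣ) _ => (a : ZMod n).val) ?_ ?_ ?_ ?_
    · intro a _
      rw [mem_filter, mem_range]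
      exact ⟨ZMod.val_lt _, ZMod.val_coe_unit_coprime a⟩
    · intro a _ b _ hab
      exact Units.ext (ZMod.val_injective _ hab)
    · intro j hj
      rw [mem_filter, mem_range] at hj
      refine ⟨ZMod.unitOfCoprime j hj.2, mem_univ _, ?_⟩
      rw [ZMod.coe_unitOfCoprime, ZMod.val_natCast, Nat.mod_eq_of_lt hj.1]
    · intro a _
      rw [← gs_eq ((d + 1) / 2) X n _ h hh, ZMod.natCast_zmod_val]
  rw [h2]
  refine h1.trans ?_
  have hnR : (0 : ℝ) < n := by exact_mod_cast hn0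
  have e1 : (n : ℝ) * Real.sqrt n = (n : ℝ) ^ (3 / 2 : ℝ) := by
    rw [Real.sqrt_eq_rpow]
    have := Real.rpow_add hnR 1 (1 / 2)
    rw [Real.rpow_one] at this
    rw [← this]
    norm_num
  rw [e1]
  refine mul_le_mul_of_nonneg_left ?_ (by positivity)
  have e2 : Real.log ((n * orderOf h : ℕ) : ℝ) ≤ 2 * Real.log n := by
    have h3 : ((n * orderOf h : ℕ) : ℝ) ≤ (n : ℝ) ^ 2 := by
      have : n * orderOf h ≤ n * n := Nat.mul_le_mul_left n (by omega)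
      rw [sq]
      exact_mod_cast this
    have h4 : (0 : ℝ) < ((n * orderOf h : ℕ) : ℝ) := by
      exact_mod_cast Nat.mul_pos hn0 (orderOf_pos h)
    have h5 := Real.log_le_log h4 h3
    rw [Real.log_pow] at h5
    exact_mod_cast h5
  linarith

theorem sum_range_gs {d : ℕ} (hd : d % 2 = 1) (X : ℕ) :
    ∑ j ∈ (range d).erase 0, Gs ((d + 1) / 2) X d j ≤
      ∑ n ∈ d.divisors.erase 1, (n : ℝ) ^ (3 / 2 : ℝ) * (1 + 2 * Real.log n) := by
  classical
  have hd0 : 0 < d := by omega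
  have h1 : ∑ n ∈ d.divisors.erase 1, ∑ j ∈ (range n).filter (fun j => Nat.Coprime j n),
      Gs ((d + 1) / 2) X n j ≤
      ∑ n ∈ d.divisors.erase 1, (n : ℝ) ^ (3 / 2 : ℝ) * (1 + 2 * Real.log n) := by
    refine Finset.sum_le_sum fun n hn => ?_
    rw [mem_erase, Nat.mem_divisors] at hn
    exact sum_coprime hd hn.2.1 hn.1 X
  refine le_trans ?_ h1
  rw [Finset.sum_sigma']
  have h2 : ∑ j ∈ (range d).erase 0, Gs ((d + 1) / 2) X d j =
      ∑ x ∈ ((range d).erase 0).image (fun j => (⟨d / Nat.gcd d j, j / Nat.gcd d j⟩ : (_ : ℕ) × ℕ)),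
        Gs ((d + 1) / 2) X x.1 x.2 := by
    rw [Finset.sum_image]
    · refine Finset.sum_congr rfl fun j _ => ?_
      have hg : 0 < Nat.gcd d j := Nat.gcd_pos_of_pos_left _ hd0
      have e1 : Nat.gcd d j * (d / Nat.gcd d j) = d := Nat.mul_div_cancel' (Nat.gcd_dvd_left _ _)
      have e2 : Nat.gcd d j * (j / Nat.gcd d j) = j := Nat.mul_div_cancel' (Nat.gcd_dvd_right _ _)
      have e3 := gs_scale ((d + 1) / 2) X (d / Nat.gcd d j) (j / Nat.gcd d j) (Nat.gcd d j) hg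
      rw [e1, e2] at e3
      exact e3
    · intro i hi j hj hij
      simp only [Sigma.mk.injEq, heq_eq_eq] at hij
      obtain ⟨h3, h4⟩ := hij
      have hgi : 0 < Nat.gcd d i := Nat.gcd_pos_of_pos_left _ hd0
      have hgj : 0 < Nat.gcd d j := Nat.gcd_pos_of_pos_left _ hd0
      have e1 : Nat.gcd d i * (d / Nat.gcd d i) = d := Nat.mul_div_cancel' (Nat.gcd_dvd_left _ _)
      have e1' : Nat.gcd d j * (d / Nat.gcd d j) = d := Nat.mul_div_cancel' (Nat.gcd_dvd_left _ _)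
      have e2 : Nat.gcd d i * (i / Nat.gcd d i) = i := Nat.mul_div_cancel' (Nat.gcd_dvd_right _ _)
      have e2' : Nat.gcd d j * (j / Nat.gcd d j) = j := Nat.mul_div_cancel' (Nat.gcd_dvd_right _ _)
      have hq : 0 < d / Nat.gcd d j := Nat.div_pos (Nat.le_of_dvd hd0 (Nat.gcd_dvd_left _ _)) hgj
      have e3 : Nat.gcd d i = Nat.gcd d j := by
        rw [h3] at e1
        exact Nat.eq_of_mul_eq_mul_right hq (e1.trans e1'.symm)
      rw [← e2, ← e2', h4, e3]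
  rw [h2]
  refine Finset.sum_le_sum_of_subset_of_nonneg ?_ fun x _ _ => gs_nonneg _ _ _ _
  intro x hx
  obtain ⟨j, hj, rfl⟩ := mem_image.1 hx
  rw [mem_erase, mem_range] at hj
  have hg : 0 < Nat.gcd d j := Nat.gcd_pos_of_pos_left _ hd0
  have hgj : Nat.gcd d j ≤ j := Nat.gcd_le_right _ (Nat.pos_of_ne_zero hj.1)
  rw [mem_sigma, mem_erase, Nat.mem_divisors, mem_filter, mem_range]
  refine ⟨⟨?_, Nat.div_dvd_of_dvd (Nat.gcd_dvd_left _ _), hd0.ne'⟩, ?_, ?_⟩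
  · intro h3
    have e1 : Nat.gcd d j * (d / Nat.gcd d j) = d := Nat.mul_div_cancel' (Nat.gcd_dvd_left _ _)
    have h3' : d / Nat.gcd d j = 1 := h3
    rw [h3', mul_one] at e1
    omega
  · have e1 : Nat.gcd d j * (d / Nat.gcd d j) = d := Nat.mul_div_cancel' (Nat.gcd_dvd_left _ _)
    have e2 : Nat.gcd d j * (j / Nat.gcd d j) = j := Nat.mul_div_cancel' (Nat.gcd_dvd_right _ _)
    have e3 : Nat.gcd d j * (j / Nat.gcd d j) < Nat.gcd d j * (d / Nat.gcd d j) := by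
      rw [e1, e2]; exact hj.2
    exact Nat.lt_of_mul_lt_mul_left e3
  · exact (Nat.coprime_div_gcd_div_gcd hg).symm

theorem hit_iff {S : Finset ℕ} (hS : ∀ p ∈ S, p.Prime) (k : ℕ) :
    Hit S k ↔ k * 2 ^ k ≡ 1 [MOD ∏ p ∈ S, p] := by
  induction S using Finset.induction_on with
  | empty => simp [Hit, Nat.modEq_one]
  | insert p S hp ih =>
    have ih := ih fun q hq => hS q (mem_insert_of_mem hq)
    have hcop : Nat.Coprime p (∏ q ∈ S, q) := by
      apply Nat.Coprime.prod_right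
      intro q hq
      rw [Nat.coprime_primes (hS p (mem_insert_self _ _)) (hS q (mem_insert_of_mem hq))]
      rintro rfl
      exact hp hq
    rw [Finset.prod_insert hp, ← Nat.modEq_and_modEq_iff_modEq_mul hcop, ← ih]
    unfold Hit
    rw [Finset.forall_mem_insert]

theorem prod_odd {S : Finset ℕ} (hS : ∀ p ∈ S, p.Prime ∧ p ≠ 2) : (∏ p ∈ S, p) % 2 = 1 := by
  rw [← Nat.odd_iff]
  refine Finset.prod_induction _ _ (fun a b ha hb => ha.mul hb) odd_one ?_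
  intro p hp
  exact (hS p hp).1.odd_of_ne_two (hS p hp).2

/-- the discrepancy in terms of the divisors -/
theorem count_div (S : Finset ℕ) (hS : ∀ p ∈ S, p.Prime ∧ p ≠ 2) (X : ℕ) :
    |((∏ p ∈ S, p : ℕ) : ℝ) * (Nat.count (Hit S) X : ℝ) - X| ≤
      ∑ n ∈ (∏ p ∈ S, p).divisors.erase 1, (n : ℝ) ^ (3 / 2 : ℝ) * (1 + 2 * Real.log n) := by
  classical
  obtain ⟨d, hdd⟩ : ∃ d, d = ∏ p ∈ S, p := ⟨_, rfl⟩
  rw [← hdd]
  have hodd : d % 2 = 1 := by rw [hdd]; exact prod_odd hS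
  have hd0 : 0 < d := by omega
  haveI : NeZero d := ⟨hd0.ne'⟩
  obtain ⟨h, hh, hh2⟩ := half_unit hodd (dvd_refl d)
  have hhit : ∀ k : ℕ, Hit S k ↔ (k : ZMod d) - (h : ZMod d) ^ k = 0 := by
    intro k
    rw [hit_iff (fun p hp => (hS p hp).1), ← hdd, ← ZMod.natCast_eq_natCast_iff, sub_eq_zero]
    push_cast
    have h3 : (h : ZMod d) ^ k * 2 ^ k = 1 := by rw [← mul_pow, hh2, one_pow]
    constructor
    · intro h4
      calc (k : ZMod d) = k * ((h : ZMod d) ^ k * 2 ^ k) := by rw [h3, mul_one]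
        _ = (k * 2 ^ k) * (h : ZMod d) ^ k := by ring
        _ = (h : ZMod d) ^ k := by rw [h4, one_mul]
    · intro h4
      rw [h4, h3]
  have hsum : ∑ a : ZMod d, Sk h a X = (d : ℂ) * (Nat.count (Hit S) X : ℂ) := by
    unfold Sk
    rw [Finset.sum_comm, Nat.count_eq_card_filter_range, Finset.card_filter]
    push_cast
    rw [Finset.mul_sum]
    refine Finset.sum_congr rfl fun k _ => ?_
    rw [AddChar.sum_mulShift _ (ZMod.isPrimitive_stdAddChar _)]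
    by_cases hk : Hit S k
    · rw [if_pos ((hhit k).1 hk), if_pos hk, ZMod.card, mul_one]
    · rw [if_neg (fun h3 => hk ((hhit k).2 h3)), if_neg hk, mul_zero, Nat.cast_zero]
  have hzero : Sk h 0 X = X := by
    unfold Sk
    simp
  have h1 : ((d : ℂ) * (Nat.count (Hit S) X : ℂ) - X) = ∑ a ∈ (univ : Finset (ZMod d)).erase 0, Sk h a X := by
    rw [← hsum, ← Finset.add_sum_erase _ _ (mem_univ (0 : ZMod d)), hzero]
    ring
  have h2 : |(d : ℝ) * (Nat.count (Hit S) X : ℝ) - X| = ‖((d : ℂ) * (Nat.count (Hit S) X : ℂ) - X)‖ := by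
    have h3 : ((d : ℂ) * (Nat.count (Hit S) X : ℂ) - X) =
        (((d : ℝ) * (Nat.count (Hit S) X : ℝ) - X : ℝ) : ℂ) := by
      push_cast
      ring
    rw [h3, Complex.norm_real, Real.norm_eq_abs]
  rw [h2, h1]
  refine (norm_sum_le _ _).trans (le_trans (le_of_eq ?_) (sum_range_gs hodd X))
  refine Finset.sum_bij (fun (a : ZMod d) _ => a.val) ?_ ?_ ?_ ?_
  · intro a ha
    rw [mem_erase] at ha
    rw [mem_erase, mem_range]
    exact ⟨fun h3 => ha.1 ((ZMod.val_eq_zero a).1 h3), ZMod.val_lt a⟩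
  · intro a _ b _ hab
    exact ZMod.val_injective _ hab
  · intro j hj
    rw [mem_erase, mem_range] at hj
    have h3 : ((j : ZMod d)).val = j := by rw [ZMod.val_natCast, Nat.mod_eq_of_lt hj.2]
    refine ⟨(j : ZMod d), ?_, h3⟩
    rw [mem_erase]
    refine ⟨?_, mem_univ _⟩
    intro h4
    rw [h4, ZMod.val_zero] at h3
    exact hj.1 h3.symm
  · intro a _
    rw [← gs_eq ((d + 1) / 2) X d _ h hh, ZMod.natCast_zmod_val]

theorem sum_div_le : ∃ C : ℝ, 0 < C ∧ ∀ d : ℕ, 0 < d →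
    ∑ n ∈ d.divisors, (n : ℝ) ^ (3 / 2 : ℝ) ≤ C * (d : ℝ) ^ (3 / 2 : ℝ) := by
  have hs : Summable fun n : ℕ => 1 / (n : ℝ) ^ (3 / 2 : ℝ) :=
    Real.summable_one_div_nat_rpow.2 (by norm_num)
  refine ⟨∑' n : ℕ, 1 / (n : ℝ) ^ (3 / 2 : ℝ) + 1, by
    have : 0 ≤ ∑' n : ℕ, 1 / (n : ℝ) ^ (3 / 2 : ℝ) := tsum_nonneg fun n => by positivity
    linarith, ?_⟩
  intro d hd
  have hdR : (0 : ℝ) < d := by exact_mod_cast hd
  have h1 : ∑ n ∈ d.divisors, (n : ℝ) ^ (3 / 2 : ℝ) =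
      ∑ n ∈ d.divisors, (d : ℝ) ^ (3 / 2 : ℝ) * (1 / (n : ℝ) ^ (3 / 2 : ℝ)) := by
    rw [← Nat.sum_div_divisors d (fun n => (n : ℝ) ^ (3 / 2 : ℝ))]
    refine Finset.sum_congr rfl fun n hn => ?_
    have hn' := (Nat.mem_divisors.1 hn).1
    have hn0 : 0 < n := Nat.pos_of_dvd_of_pos hn' hd
    rw [Nat.cast_div hn' (by exact_mod_cast hn0.ne'), Real.div_rpow hdR.le (Nat.cast_nonneg _)]
    ring
  rw [h1, ← Finset.mul_sum, mul_comm]
  refine mul_le_mul_of_nonneg_right ?_ (by positivity)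
  have h2 := hs.sum_le_tsum d.divisors (fun n _ => by positivity)
  linarith

/-- the level of distribution -/
theorem lev_half (κ : ℝ) (hκ : 1 / 2 < κ) : ∃ C : ℝ, 0 < C ∧ Lev κ C := by
  obtain ⟨C1, hC1, hdiv⟩ := sum_div_le
  have hκ' : 0 < κ - 1 / 2 := by linarith
  refine ⟨C1 * (1 + 2 / (κ - 1 / 2)), by positivity, ?_⟩
  intro S hS X
  have h1 := count_div S hS X
  obtain ⟨d, hdd⟩ : ∃ d, d = ∏ p ∈ S, p := ⟨_, rfl⟩
  rw [← hdd] at h1 ⊢
  have hodd : d % 2 = 1 := by rw [hdd]; exact prod_odd hS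
  have hd0 : 0 < d := by omega
  have hdR : (0 : ℝ) < d := by exact_mod_cast hd0
  have hd1 : (1 : ℝ) ≤ d := by exact_mod_cast hd0
  have hlog : 0 ≤ Real.log d := Real.log_nonneg hd1
  have h2 : ∑ n ∈ d.divisors.erase 1, (n : ℝ) ^ (3 / 2 : ℝ) * (1 + 2 * Real.log n) ≤
      (C1 * (d : ℝ) ^ (3 / 2 : ℝ)) * (1 + 2 * Real.log d) := by
    calc _ ≤ ∑ n ∈ d.divisors.erase 1, (n : ℝ) ^ (3 / 2 : ℝ) * (1 + 2 * Real.log d) := by
          refine Finset.sum_le_sum fun n hn => ?_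
          rw [mem_erase, Nat.mem_divisors] at hn
          have hn0 : 0 < n := Nat.pos_of_dvd_of_pos hn.2.1 hd0
          have hnd : (n : ℝ) ≤ d := by exact_mod_cast Nat.le_of_dvd hd0 hn.2.1
          have : Real.log n ≤ Real.log d := Real.log_le_log (by exact_mod_cast hn0) hnd
          have h3 : (0 : ℝ) ≤ (n : ℝ) ^ (3 / 2 : ℝ) := by positivity
          exact mul_le_mul_of_nonneg_left (by linarith) h3
      _ ≤ ∑ n ∈ d.divisors, (n : ℝ) ^ (3 / 2 : ℝ) * (1 + 2 * Real.log d) := by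
          refine Finset.sum_le_sum_of_subset_of_nonneg (Finset.erase_subset _ _) fun n _ _ => ?_
          positivity
      _ = (∑ n ∈ d.divisors, (n : ℝ) ^ (3 / 2 : ℝ)) * (1 + 2 * Real.log d) := by rw [Finset.sum_mul]
      _ ≤ _ := mul_le_mul_of_nonneg_right (hdiv d hd0) (by linarith)
  have h3 : 1 + 2 * Real.log d ≤ (1 + 2 / (κ - 1 / 2)) * (d : ℝ) ^ (κ - 1 / 2) := by
    have h4 := Real.log_le_rpow_div hdR.le hκ'
    have h5 : 1 ≤ (d : ℝ) ^ (κ - 1 / 2) := Real.one_le_rpow hd1 hκ'.le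
    have h6 : (1 + 2 / (κ - 1 / 2)) * (d : ℝ) ^ (κ - 1 / 2) =
        (d : ℝ) ^ (κ - 1 / 2) + 2 * ((d : ℝ) ^ (κ - 1 / 2) / (κ - 1 / 2)) := by ring
    rw [h6]
    linarith
  have h4 : |(Nat.count (Hit S) X : ℝ) - X / d| = |(d : ℝ) * (Nat.count (Hit S) X : ℝ) - X| / d := by
    rw [← abs_of_pos hdR, ← abs_div, abs_of_pos hdR]
    congr 1
    field_simp
  rw [h4, div_le_iff₀ hdR]
  refine h1.trans (h2.trans ?_)
  have h5 : C1 * (d : ℝ) ^ (3 / 2 : ℝ) * (1 + 2 * Real.log d) ≤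
      C1 * (d : ℝ) ^ (3 / 2 : ℝ) * ((1 + 2 / (κ - 1 / 2)) * (d : ℝ) ^ (κ - 1 / 2)) :=
    mul_le_mul_of_nonneg_left h3 (by positivity)
  refine h5.trans (le_of_eq ?_)
  have h6 : (d : ℝ) ^ (3 / 2 : ℝ) * (d : ℝ) ^ (κ - 1 / 2) = (d : ℝ) ^ κ * d := by
    rw [← Real.rpow_add hdR]
    have := Real.rpow_add hdR κ 1
    rw [Real.rpow_one] at this
    rw [← this]
    congr 1
    ring
  calc C1 * (d : ℝ) ^ (3 / 2 : ℝ) * ((1 + 2 / (κ - 1 / 2)) * (d : ℝ) ^ (κ - 1 / 2)) =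
      C1 * (1 + 2 / (κ - 1 / 2)) * ((d : ℝ) ^ (3 / 2 : ℝ) * (d : ℝ) ^ (κ - 1 / 2)) := by ring
    _ = _ := by rw [h6]; ring

end Pool.Agent.H5.WD
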