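import Mathlib
import Pool.Agent.H5.WD.Lev
import Pool.Agent.H5.WD.Fin

/-!
[H5 WD Last]  Both bounds for all `z ≤ X^θ`, `θ < 1/3`, and the asymptotic for small `z`.
-/

set_option autoImplicit false

namespace Pool.Agent.H5.WD

open Finset Filter Topology Pool.Agent.H75.AP

theorem NN_anti (X : ℕ) {z w : ℝ} (h : z ≤ w) : NN X w ≤ NN X z := by
  classical
  rw [NN_eq, NN_eq]
  refine Finset.sum_le_sum fun k _ => ?_
  by_cases hw : Free w k
  · have hz : Free z k := by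
      intro p hp
      obtain ⟨h1, h2, h3⟩ := (MertB.mem_PI (by norm_num)).1 hp
      exact hw p ((MertB.mem_PI (by norm_num)).2 ⟨h1, h2, h3.trans h⟩)
    rw [if_pos hw, if_pos hz]
  · rw [if_neg hw]
    split_ifs <;> norm_num

theorem asym (ε : ℝ) (hε : 0 < ε) : ∃ δ : ℝ, 0 < δ ∧ δ ≤ 1 ∧ ∃ X0 : ℕ, 3 ≤ X0 ∧ ∀ X : ℕ, X0 ≤ X → ∀ z : ℝ, 2 ≤ z →
    z ≤ (X : ℝ) ^ δ → |NN X z - X * VV z| ≤ ε * (X * VV z) := by
  obtain ⟨C0, hC0, hfl⟩ := fl_main (le_of_lt one_pos) le_rfl (le_of_lt one_pos) lev_one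
  obtain ⟨c, hc, hV⟩ := VV_lower
  obtain ⟨B1, hB1⟩ := exists_pow_lt_of_lt_one (show 0 < ε / 2 by positivity) (show (1 / 2 : ℝ) < 1 by norm_num)
  obtain ⟨B, hBd⟩ : ∃ B : ℕ, B = B1 + 10 := ⟨_, rfl⟩
  have hB10 : 10 ≤ B := by omega
  have hBε : (1 / 2 : ℝ) ^ B ≤ ε / 2 := by
    refine le_trans ?_ hB1.le
    rw [hBd]
    exact pow_le_pow_of_le_one (by norm_num) (by norm_num) (by omega)
  obtain ⟨a, ha⟩ : ∃ a : ℝ, a = (1 / 4) / (6 * B + 12) := ⟨_, rfl⟩
  have hB0 : (0 : ℝ) < 6 * B + 12 := by positivity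
  have ha0 : 0 < a := by rw [ha]; positivity
  have haη : a * (6 * B + 12) ≤ 1 / 4 := by rw [ha]; field_simp; exact le_refl _
  have ha1 : a ≤ 1 := by
    have : a * 12 ≤ a * (6 * B + 12) := mul_le_mul_of_nonneg_left (by
      have : (0 : ℝ) ≤ B := Nat.cast_nonneg _
      linarith) ha0.le
    linarith
  obtain ⟨x0, hx0, hfl⟩ := hfl B (1 / 4) a hB10 ha0 ha1 haη
  have ev : ∀ᶠ x : ℝ in atTop, C0 * Real.log x ≤ (ε / 2 * c) * x ^ (1 / 2 : ℝ) := by
    have h1 : (fun x : ℝ => C0 * Real.log x) =o[atTop] fun x : ℝ => x ^ (1 / 2 : ℝ) :=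
      (isLittleO_log_rpow_atTop (by norm_num)).const_mul_left _
    filter_upwards [h1.bound (show 0 < ε / 2 * c by positivity), eventually_gt_atTop (1 : ℝ)] with x hx hx1
    have h2 : 0 ≤ x ^ (1 / 2 : ℝ) := by positivity
    rw [Real.norm_of_nonneg h2] at hx
    exact (le_abs_self _).trans hx
  have hev := ev.and (eventually_ge_atTop (max x0 3))
  obtain ⟨X0, hX0⟩ := (tendsto_natCast_atTop_atTop (R := ℝ)).eventually hev |>.exists_forall_of_atTop
  refine ⟨a, ha0, ha1, max X0 3, le_max_right _ _, ?_⟩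
  intro X hX z hz2 hzX
  obtain ⟨e1, e2⟩ := hX0 X ((le_max_left _ _).trans hX)
  have h1 := hfl X X ((le_max_left _ _).trans e2) z hz2 hzX ∅ (fun p hp => absurd hp (Finset.notMem_empty p))
  rw [Finset.prod_empty, Nat.cast_one, div_one, Real.one_rpow, one_mul] at h1
  have hX3 : (3 : ℝ) ≤ X := (le_max_right _ _).trans e2
  have hX0' : (0 : ℝ) < X := by linarith
  have hlX : 0 < Real.log X := Real.log_pos (by linarith)
  have hV0 := VV_nonneg z
  have hzX' : z ≤ X := hzX.trans (by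
    calc (X : ℝ) ^ a ≤ (X : ℝ) ^ (1 : ℝ) := Real.rpow_le_rpow_of_exponent_le (by linarith) ha1
      _ = X := Real.rpow_one _)
  have hVl : c / Real.log X ≤ VV z := by
    refine le_trans ?_ (hV z hz2)
    apply div_le_div_of_nonneg_left hc.le (Real.log_pos (by linarith))
    exact Real.log_le_log (by linarith) hzX'
  have h2 : (X : ℝ) ^ (1 / 4 : ℝ) * (X : ℝ) ^ (1 / 4 : ℝ) = (X : ℝ) ^ (1 / 2 : ℝ) := by
    rw [← Real.rpow_add hX0']
    norm_num
  rw [h2] at h1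
  have h3 : C0 * (X : ℝ) ^ (1 / 2 : ℝ) ≤ ε / 2 * (X * VV z) := by
    have h4 : (X : ℝ) ^ (1 / 2 : ℝ) * (X : ℝ) ^ (1 / 2 : ℝ) = X := by
      rw [← Real.rpow_add hX0']
      norm_num
    have h5 : C0 * (X : ℝ) ^ (1 / 2 : ℝ) ≤ ε / 2 * (X * (c / Real.log X)) := by
      have h6 : ε / 2 * (X * (c / Real.log X)) = (ε / 2 * c) * X / Real.log X := by ring
      rw [h6, le_div_iff₀ hlX]
      calc C0 * (X : ℝ) ^ (1 / 2 : ℝ) * Real.log X = (X : ℝ) ^ (1 / 2 : ℝ) * (C0 * Real.log X) := by ring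
        _ ≤ (X : ℝ) ^ (1 / 2 : ℝ) * ((ε / 2 * c) * (X : ℝ) ^ (1 / 2 : ℝ)) :=
            mul_le_mul_of_nonneg_left e1 (by positivity)
        _ = (ε / 2 * c) * ((X : ℝ) ^ (1 / 2 : ℝ) * (X : ℝ) ^ (1 / 2 : ℝ)) := by ring
        _ = _ := by rw [h4]
    exact h5.trans (mul_le_mul_of_nonneg_left (mul_le_mul_of_nonneg_left hVl hX0'.le) (by positivity))
  have h4 : (1 / 2 : ℝ) ^ B * (X * VV z) ≤ ε / 2 * (X * VV z) :=
    mul_le_mul_of_nonneg_right hBε (by positivity)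
  unfold NN
  calc _ ≤ _ := h1
    _ ≤ ε / 2 * (X * VV z) + ε / 2 * (X * VV z) := add_le_add h4 h3
    _ = _ := by ring

theorem both (θ : ℝ) (hθ : θ < 1 / 3) : ∃ c C : ℝ, 0 < c ∧ 0 < C ∧ ∃ X0 : ℕ, ∀ X : ℕ, X0 ≤ X → ∀ z : ℝ, 2 ≤ z →
    z ≤ (X : ℝ) ^ θ → c * (X / Real.log z) ≤ NN X z ∧ NN X z ≤ C * (X / Real.log z) := by
  obtain ⟨θ', hθd⟩ : ∃ θ' : ℝ, θ' = max θ (1 / 4) := ⟨_, rfl⟩
  have hθ1 : θ ≤ θ' := by rw [hθd]; exact le_max_left _ _
  have hθ4 : 1 / 4 ≤ θ' := by rw [hθd]; exact le_max_right _ _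
  have hθ3 : θ' < 1 / 3 := by rw [hθd]; exact max_lt hθ (by norm_num)
  obtain ⟨κ, hκ⟩ : ∃ κ : ℝ, κ = 1 - 3 * θ' / 2 := ⟨_, rfl⟩
  have hκ1 : κ ≤ 1 := by rw [hκ]; linarith
  have hκ2 : 1 / 2 < κ := by rw [hκ]; linarith
  have hκ3 : 2 * θ' * (1 + κ) < 1 := by rw [hκ]; nlinarith
  obtain ⟨C1, hC1, hlev⟩ := lev_half κ hκ2
  obtain ⟨c1, hc1, X1, h1⟩ := lin_lower (by linarith) hκ1 hC1.le hlev θ' (by linarith) hκ3
  obtain ⟨δ, hδ, hδ1, X2, hX2, h2⟩ := asym (1 / 2) (by norm_num)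
  obtain ⟨c2, hc2, hVl⟩ := VV_lower
  obtain ⟨C2, hC2, hVu⟩ := VV_upper
  have ev : ∀ᶠ x : ℝ in atTop, 2 ≤ x ^ δ := (tendsto_rpow_atTop hδ).eventually_ge_atTop 2
  obtain ⟨X3, hX3⟩ := (tendsto_natCast_atTop_atTop (R := ℝ)).eventually ev |>.exists_forall_of_atTop
  refine ⟨min (c2 / 2) (c1 * δ), 3 / 2 * C2 / δ, lt_min (by positivity) (by positivity), by positivity,
    max X1 (max X2 X3), ?_⟩
  intro X hX z hz2 hzX
  have g1 : X1 ≤ X := (le_max_left _ _).trans hX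
  have g2 : X2 ≤ X := (le_max_left _ _).trans ((le_max_right _ _).trans hX)
  have g3 : X3 ≤ X := (le_max_right _ _).trans ((le_max_right _ _).trans hX)
  have hXR : (3 : ℝ) ≤ X := by exact_mod_cast hX2.trans g2
  have hX0 : (0 : ℝ) < X := by linarith
  have hzX' : z ≤ (X : ℝ) ^ θ' := hzX.trans (Real.rpow_le_rpow_of_exponent_le (by linarith) hθ1)
  have hlz : 0 < Real.log z := Real.log_pos (by linarith)
  have hlX : 0 < Real.log X := Real.log_pos (by linarith)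
  have hlzX : Real.log z ≤ Real.log X := by
    have h3 := Real.log_le_log (by linarith) hzX'
    rw [Real.log_rpow hX0] at h3
    nlinarith
  have hq : 0 ≤ X / Real.log z := by positivity
  by_cases hz : z ≤ (X : ℝ) ^ δ
  · have h3 := abs_le.1 (h2 X g2 z hz2 hz)
    have h4 := hVl z hz2
    have h5 := hVu z hz2
    have h6 : X * (c2 / Real.log z) ≤ X * VV z := mul_le_mul_of_nonneg_left h4 hX0.le
    have h7 : X * VV z ≤ X * (C2 / Real.log z) := mul_le_mul_of_nonneg_left h5 hX0.le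
    have h8 : X * (c2 / Real.log z) = c2 * (X / Real.log z) := by ring
    have h9 : X * (C2 / Real.log z) = C2 * (X / Real.log z) := by ring
    rw [h8] at h6
    rw [h9] at h7
    constructor
    · have h10 : min (c2 / 2) (c1 * δ) * (X / Real.log z) ≤ c2 / 2 * (X / Real.log z) :=
        mul_le_mul_of_nonneg_right (min_le_left _ _) hq
      linarith [h3.1]
    · have h10 : 3 / 2 * C2 * (X / Real.log z) ≤ 3 / 2 * C2 / δ * (X / Real.log z) := by
        refine mul_le_mul_of_nonneg_right ?_ hq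
        rw [le_div_iff₀ hδ]
        nlinarith
      linarith [h3.2]
  · rw [not_le] at hz
    have hδz : δ * Real.log X ≤ Real.log z := by
      have h3 := Real.log_le_log (by positivity) hz.le
      rwa [Real.log_rpow hX0] at h3
    constructor
    · have h3 := h1 X g1
      have h4 := NN_anti X hzX'
      have h5 : min (c2 / 2) (c1 * δ) * (X / Real.log z) ≤ c1 * δ * (X / Real.log z) :=
        mul_le_mul_of_nonneg_right (min_le_right _ _) hq
      have h6 : δ * (X / Real.log z) ≤ X / Real.log X := by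
        rw [le_div_iff₀ hlX, mul_div_assoc', div_mul_eq_mul_div, div_le_iff₀ hlz]
        nlinarith
      have h7 : c1 * δ * (X / Real.log z) ≤ c1 * (X / Real.log X) := by
        rw [mul_assoc]
        exact mul_le_mul_of_nonneg_left h6 hc1.le
      linarith
    · have h3 := (abs_le.1 (h2 X g2 ((X : ℝ) ^ δ) (hX3 X g3) le_rfl)).2
      have h4 := NN_anti X hz.le
      have h5 := hVu ((X : ℝ) ^ δ) (hX3 X g3)
      rw [Real.log_rpow hX0] at h5
      have h6 : X * VV ((X : ℝ) ^ δ) ≤ X * (C2 / (δ * Real.log X)) := mul_le_mul_of_nonneg_left h5 hX0.le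
      have h7 : 3 / 2 * (X * (C2 / (δ * Real.log X))) ≤ 3 / 2 * C2 / δ * (X / Real.log z) := by
        have h8 : 3 / 2 * (X * (C2 / (δ * Real.log X))) = 3 / 2 * C2 / δ * (X / Real.log X) := by
          field_simp
        rw [h8]
        exact mul_le_mul_of_nonneg_left (div_le_div_of_nonneg_left hX0.le hlz hlzX) (by positivity)
      linarith

end Pool.Agent.H5.WD
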